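import Pool.Agent.H84.Unc.Defs
import Pool.Agent.H74.Unc.N8

/-!
# UNC2, module N7: smoothing of a body
-/

set_option autoImplicit false
set_option linter.style.haveILetI false

open MeasureTheory Set Filter Topology

namespace Pool.Agent.H84.Unc

open Pool.Agent.H84

variable {n : ℕ}

/-- The smoothed potential, in box coordinates. -/
noncomputable def WW (K : Set (EuclideanSpace ℝ (Fin n))) (ε : ℝ) (x : Fin n → ℝ) : ℝ :=
  -Real.log (ZZ K ε (WithLp.toLp 2 (fun i => zc i x)))

namespace N7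



/-- The linear part of `zz`. -/
noncomputable abbrev LP (n : ℕ) : (Fin n → ℝ) →L[ℝ] EuclideanSpace ℝ (Fin n) :=
  ((PiLp.continuousLinearEquiv 2 ℝ (fun _ : Fin n => ℝ)).symm :
      (Fin n → ℝ) →L[ℝ] EuclideanSpace ℝ (Fin n))

theorem second_dir {U : (Fin n → ℝ) → ℝ} (hU : ContDiff ℝ 2 U) (x v : Fin n → ℝ) :
    ∑ i, ∑ j, pd i (pd j U) x * v i * v j = fderiv ℝ (fun x => fderiv ℝ U x v) x v := by
  have hv : v = ∑ j, v j • (Pi.single j (1:ℝ) : Fin n → ℝ) := by
    ext k
    simp [Finset.sum_apply, Pi.single_apply]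
  have hd : ∀ j, ContDiff ℝ 1 (pd j U) := fun j => by
    unfold pd
    exact (hU.fderiv_right (m := 1) (by norm_num)).clm_apply contDiff_const
  have h1 : (fun x => fderiv ℝ U x v) = fun x => ∑ j, v j * pd j U x := by
    ext y
    conv_lhs => rw [hv]
    rw [map_sum]
    refine Finset.sum_congr rfl fun j _ => ?_
    rw [map_smul, smul_eq_mul]
    rfl
  have h2 : ∀ g : (Fin n → ℝ) → ℝ, fderiv ℝ g x v = ∑ i, v i * pd i g x := by
    intro g
    conv_lhs => rw [hv]
    rw [map_sum]
    refine Finset.sum_congr rfl fun j _ => ?_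
    rw [map_smul, smul_eq_mul]
    rfl
  rw [h2, h1]
  refine Finset.sum_congr rfl fun i _ => ?_
  have h3 : pd i (fun x => ∑ j, v j * pd j U x) x = ∑ j, v j * pd i (pd j U) x := by
    unfold pd
    rw [fderiv_fun_sum]
    · simp only [sum_apply]
      refine Finset.sum_congr rfl fun j _ => ?_
      have h4 := (((hd j).differentiable one_ne_zero) x).hasFDerivAt.const_mul (v j)
      have h5 := h4.fderiv
      unfold pd at h5
      rw [h5]
      rfl
    · intro j _
      exact ((((hd j).differentiable one_ne_zero) x).const_mul (v j))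
  rw [h3, Finset.mul_sum]
  refine Finset.sum_congr rfl fun j _ => ?_
  ring

section

variable {K : Set (EuclideanSpace ℝ (Fin n))} {R ε : ℝ}

/-- Derivative of `- log Z`. -/
theorem hasFDerivAt_negLog (hε : 0 < ε) (hK : CB K R) (y : EuclideanSpace ℝ (Fin n)) :
    HasFDerivAt (fun y => -Real.log (ZZ K ε y)) (-((ZZ K ε y)⁻¹ • DNN K ε (fun _ => 1) y)) y := by
  have h2 := hasFDerivAt_NN hε hK.meas hK.sub (ψ := fun _ => (1:ℝ)) (M := 1) measurable_const
    (fun x _ => by simp) y
  have hZ := ZZ_pos hε hK.meas hK.vol0 y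
  have h2' : HasFDerivAt (ZZ K ε) (DNN K ε (fun _ => 1) y) y := by
    have : ZZ K ε = NN K ε (fun _ => 1) := by ext z; exact ZZ_eq_NN z
    rwa [this]
  exact (h2'.log hZ.ne').neg

theorem bm_inner (hK : CB K R) (v : EuclideanSpace ℝ (Fin n)) : BM K (fun x => inner ℝ x v) :=
  hK.bm_of_cont (by fun_prop)

theorem negLog_apply (hε : 0 < ε) (hK : CB K R) (y v : EuclideanSpace ℝ (Fin n)) :
    (-((ZZ K ε y)⁻¹ • DNN K ε (fun _ => 1) y)) v =
      -((ε ^ 2)⁻¹ * (avg K ε (fun x => inner ℝ x v) y - inner ℝ y v)) := by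
  haveI := isProb_PP hε hK.meas hK.vol0 y
  have hZ := ZZ_pos hε hK.meas hK.vol0 y
  have h0 := DNN_apply hε hK.meas hK.sub (ψ := fun _ => (1:ℝ)) (M := 1) measurable_const
    (fun x _ => by simp) y v
  have h1 : ∫ x, inner ℝ (x - y) v ∂(PP K ε y) =
      (∫ x, inner ℝ x v ∂(PP K ε y)) - inner ℝ y v := by
    have e : ∀ x : EuclideanSpace ℝ (Fin n), inner ℝ (x - y) v = inner ℝ x v - inner ℝ y v := fun x => inner_sub_left _ _ _
    simp only [e]
    rw [integral_sub ((bm_inner hK v).integrable_PP hε hK y) (integrable_const _)]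
    simp
  rw [integral_PP hε hK.meas hK.vol0, integral_PP hε hK.meas hK.vol0] at h1
  rw [← h1]
  simp only [neg_apply, smul_apply, smul_eq_mul]
  rw [h0, avg, NN]
  simp only [one_mul]
  field_simp

/-- The derivative in a direction, in box coordinates. -/
theorem fderiv_WW (hε : 0 < ε) (hK : CB K R) (x v : Fin n → ℝ) :
    fderiv ℝ (WW K ε) x v =
      -((ε ^ 2)⁻¹ * (avg K ε (fun z => inner ℝ z (LP n v)) (N8.zz x) - inner ℝ (N8.zz x) (LP n v))) := by
  have h := (hasFDerivAt_negLog hε hK (N8.zz x)).comp x (N8.hasFDerivAt_zz x)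
  have h' : fderiv ℝ (WW K ε) x = _ := h.fderiv
  rw [h']
  exact negLog_apply hε hK (N8.zz x) (LP n v)

theorem differentiable_WW (hε : 0 < ε) (hK : CB K R) : Differentiable ℝ (WW K ε) := by
  intro x
  exact ((hasFDerivAt_negLog hε hK (N8.zz x)).comp x (N8.hasFDerivAt_zz x)).differentiableAt

theorem contDiff_avg_zz (hε : 0 < ε) (hK : CB K R) (w : EuclideanSpace ℝ (Fin n)) :
    ContDiff ℝ 1 (fun x : Fin n → ℝ => avg K ε (fun z => inner ℝ z w) (N8.zz x)) := by
  obtain ⟨h1, M, hM⟩ := bm_inner hK w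
  exact (contDiff_avg hε hK.meas hK.sub hK.vol0 h1 hM).comp N8.contDiff_zz

theorem contDiff_WW (hε : 0 < ε) (hK : CB K R) : ContDiff ℝ 2 (WW K ε) := by
  have : ((1 : WithTop ℕ∞) + 1) = 2 := by norm_num
  rw [← this, contDiff_succ_iff_fderiv_apply]
  refine ⟨differentiable_WW hε hK, by simp, fun v => ?_⟩
  have h : (fun x => fderiv ℝ (WW K ε) x v) = fun x => -((ε ^ 2)⁻¹ *
      (avg K ε (fun z => inner ℝ z (LP n v)) (N8.zz x) - inner ℝ (N8.zz x) (LP n v))) := by
    ext x
    exact fderiv_WW hε hK x v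
  rw [h]
  refine (contDiff_const.mul ((contDiff_avg_zz hε hK _).sub ?_)).neg
  exact N8.contDiff_zz.inner ℝ contDiff_const

theorem hess_WW (hε : 0 < ε) (hK : CB K R) (x v : Fin n → ℝ) :
    0 ≤ fderiv ℝ (fun x => fderiv ℝ (WW K ε) x v) x v := by
  set w := LP n v with hw
  have h : (fun x => fderiv ℝ (WW K ε) x v) = fun x => -((ε ^ 2)⁻¹ *
      (avg K ε (fun z => inner ℝ z w) (N8.zz x) - inner ℝ (N8.zz x) w)) := by
    ext x
    exact fderiv_WW hε hK x v
  obtain ⟨m1, M, hM⟩ := bm_inner hK w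
  set y := N8.zz x with hy
  have hA : HasFDerivAt (fun x => avg K ε (fun z => inner ℝ z w) (N8.zz x))
      ((fderiv ℝ (avg K ε (fun z => inner ℝ z w)) y).comp (LP n)) x := by
    have h0 : HasFDerivAt (avg K ε (fun z => inner ℝ z w))
        (fderiv ℝ (avg K ε (fun z => inner ℝ z w)) y) y :=
      (((contDiff_avg hε hK.meas hK.sub hK.vol0 m1 hM).differentiable one_ne_zero) y).hasFDerivAt
    exact h0.comp x (N8.hasFDerivAt_zz x)
  have hB : HasFDerivAt (fun x => inner ℝ (N8.zz x) w) ((innerSL ℝ w).comp (LP n)) x := by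
    have e : (fun x : Fin n → ℝ => inner ℝ (N8.zz x) w) = fun x => innerSL ℝ w (N8.zz x) := by
      ext z
      rw [innerSL_apply_apply, real_inner_comm]
    rw [e]
    exact ((innerSL ℝ w).hasFDerivAt).comp x (N8.hasFDerivAt_zz x)
  have hC := ((hA.sub hB).const_mul ((ε ^ 2)⁻¹)).neg
  have hD : fderiv ℝ (fun x => fderiv ℝ (WW K ε) x v) x = -((ε ^ 2)⁻¹ •
      ((fderiv ℝ (avg K ε (fun z => inner ℝ z w)) y).comp (LP n) - (innerSL ℝ w).comp (LP n))) := by
    rw [h]
    exact hC.fderiv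
  rw [hD]
  simp only [neg_apply, smul_apply, sub_apply, ContinuousLinearMap.comp_apply, smul_eq_mul]
  rw [← hw, fderiv_avg_apply hε hK.meas hK.sub hK.vol0 m1 hM, innerSL_apply_apply]
  haveI := isProb_PP hε hK.meas hK.vol0 y
  have hvar := var_inner_le hε hK.conv hK.meas hK.sub hK.vol0 y w
  -- covariance of `⟨z, w⟩` and `⟨z - y, w⟩` is the variance of `⟨z - y, w⟩`
  have hL2 := memLp_inner hε hK.meas hK.sub hK.vol0 y w
  have i1 : Integrable (fun z : EuclideanSpace ℝ (Fin n) => inner ℝ (z - y) w) (PP K ε y) :=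
    hL2.integrable (by norm_num)
  have e0 : ∀ z : EuclideanSpace ℝ (Fin n), inner ℝ z w = inner ℝ (z - y) w + inner ℝ y w := by
    intro z; rw [inner_sub_left]; ring
  have e1 : ∫ z, inner ℝ z w * inner ℝ (z - y) w ∂(PP K ε y) =
      (∫ z, (inner ℝ (z - y) w) ^ 2 ∂(PP K ε y)) + inner ℝ y w * ∫ z, inner ℝ (z - y) w ∂(PP K ε y) := by
    rw [← integral_const_mul, ← integral_add hL2.integrable_sq (i1.const_mul _)]
    congr 1
    ext z
    rw [e0 z]
    ring
  have e2 : ∫ z, inner ℝ z w ∂(PP K ε y) = (∫ z, inner ℝ (z - y) w ∂(PP K ε y)) + inner ℝ y w := by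
    have : ∫ z, inner ℝ z w ∂(PP K ε y) = ∫ z, (inner ℝ (z - y) w + inner ℝ y w) ∂(PP K ε y) := by
      congr 1
      ext z
      exact e0 z
    rw [this, integral_add i1 (integrable_const _)]
    simp
  rw [e1, e2]
  set V := ∫ z, (inner ℝ (z - y) w) ^ 2 ∂(PP K ε y)
  set m := ∫ z, inner ℝ (z - y) w ∂(PP K ε y)
  have h3 : V + inner ℝ y w * m - (m + inner ℝ y w) * m = V - m ^ 2 := by ring
  rw [h3, real_inner_self_eq_norm_sq]
  have h4 : (ε ^ 2)⁻¹ * (V - m ^ 2) ≤ ‖w‖ ^ 2 := by
    rw [inv_mul_le_iff₀ (by positivity)]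
    linarith
  have h5 : 0 < (ε ^ 2)⁻¹ := by positivity
  nlinarith

/-! ### Evenness -/

theorem flip_flip (i : Fin n) (x : EuclideanSpace ℝ (Fin n)) : flip i (flip i x) = x := by
  ext j
  by_cases h : j = i
  · subst h
    simp [flip]
  · simp [flip, h]

/-- The reflection as a linear isometry. -/
noncomputable def flipL (i : Fin n) : EuclideanSpace ℝ (Fin n) ≃ₗᵢ[ℝ] EuclideanSpace ℝ (Fin n) where
  toFun := flip i
  invFun := flip i
  left_inv := flip_flip i
  right_inv := flip_flip i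
  map_add' x y := by
    ext j
    by_cases h : j = i
    · subst h
      simp [flip]
      ring
    · simp [flip, h]
  map_smul' r x := by
    ext j
    by_cases h : j = i
    · subst h
      simp [flip]
    · simp [flip, h]
  norm_map' x := by
    change ‖flip i x‖ = ‖x‖
    rw [EuclideanSpace.norm_eq, EuclideanSpace.norm_eq]
    congr 1
    refine Finset.sum_congr rfl fun j _ => ?_
    by_cases h : j = i
    · subst h
      simp [flip]
    · simp [flip, h]

theorem flipL_apply (i : Fin n) (x : EuclideanSpace ℝ (Fin n)) : flipL i x = flip i x := rfl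

theorem zz_rf (i : Fin n) (x : Fin n → ℝ) : N8.zz (rf i x) = flip i (N8.zz x) := by
  ext j
  by_cases h : j = i
  · subst h
    simp [N8.zz, flip, rf, zc]
    ring
  · simp [N8.zz, flip, rf, zc, h]

theorem ZZ_flip (hinv : RInv K) (i : Fin n) (y : EuclideanSpace ℝ (Fin n)) :
    ZZ K ε (flip i y) = ZZ K ε y := by
  have hmp : MeasurePreserving (flipL i : EuclideanSpace ℝ (Fin n) → EuclideanSpace ℝ (Fin n))
      volume volume := (flipL i).measurePreserving
  have hpre : (flipL i : EuclideanSpace ℝ (Fin n) → EuclideanSpace ℝ (Fin n)) ⁻¹' K = K := by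
    ext x
    constructor
    · intro hx
      have := hinv i _ hx
      rwa [flipL_apply, flip_flip] at this
    · intro hx
      exact hinv i x hx
  have h1 := hmp.setIntegral_preimage_emb (flipL i).toHomeomorph.measurableEmbedding
    (fun x => kern ε x (flip i y)) K
  rw [hpre] at h1
  rw [ZZ, ← h1, ZZ]
  congr 1
  ext x
  rw [← flipL_apply, kern, kern, ← map_sub, LinearIsometryEquiv.norm_map]

theorem WW_even (hinv : RInv K) (i : Fin n) (x : Fin n → ℝ) : WW K ε (rf i x) = WW K ε x := by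
  change -Real.log (ZZ K ε (N8.zz (rf i x))) = -Real.log (ZZ K ε (N8.zz x))
  rw [zz_rf, ZZ_flip hinv]

end

/-! ### The limit -/

theorem integral_kern_one_pos : 0 < cE (EuclideanSpace ℝ (Fin n)) 1 := cE_pos one_pos

/-- Normalised standard Gaussian. -/
noncomputable def gs (n : ℕ) (w : EuclideanSpace ℝ (Fin n)) : ℝ :=
  (cE (EuclideanSpace ℝ (Fin n)) 1)⁻¹ * kern 1 w 0

theorem gs_nonneg (w : EuclideanSpace ℝ (Fin n)) : 0 ≤ gs n w :=
  mul_nonneg (inv_nonneg.2 (cE_pos one_pos).le) (kern_pos _ _ _).le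

theorem gs_integral : ∫ w, gs n w = 1 := by
  unfold gs
  rw [integral_const_mul]
  exact inv_mul_cancel₀ (cE_pos one_pos).ne'

theorem gs_decay : Tendsto (fun x : EuclideanSpace ℝ (Fin n) =>
    ‖x‖ ^ Module.finrank ℝ (EuclideanSpace ℝ (Fin n)) * gs n x) (Bornology.cobounded _) (𝓝 0) := by
  have h1 : Tendsto (fun t : ℝ => t ^ Module.finrank ℝ (EuclideanSpace ℝ (Fin n)) *
      Real.exp (-t ^ 2 / (2 * 1 ^ 2))) atTop (𝓝 0) := by
    set d := Module.finrank ℝ (EuclideanSpace ℝ (Fin n)) with hd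
    have h0 := Real.tendsto_pow_mul_exp_neg_atTop_nhds_zero d
    refine squeeze_zero' ?_ ?_ h0
    · filter_upwards [eventually_ge_atTop (0:ℝ)] with t ht
      positivity
    · filter_upwards [eventually_ge_atTop (2:ℝ)] with t ht
      have h2 : Real.exp (-t ^ 2 / (2 * 1 ^ 2)) ≤ Real.exp (-t) := by
        apply Real.exp_le_exp.2
        nlinarith
      exact mul_le_mul_of_nonneg_left h2 (by positivity)
  have h2 := (h1.comp (tendsto_norm_cobounded_atTop (E := EuclideanSpace ℝ (Fin n)))).const_mul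
    ((cE (EuclideanSpace ℝ (Fin n)) 1)⁻¹)
  rw [mul_zero] at h2
  refine h2.congr fun x => ?_
  simp only [Function.comp, gs, kern, sub_zero]
  ring

theorem kern_scale {δ : ℝ} (hδ : 0 < δ) (x y : EuclideanSpace ℝ (Fin n)) :
    kern δ x y = kern 1 (δ⁻¹ • (y - x)) 0 := by
  rw [kern, kern, sub_zero, norm_smul, norm_sub_rev, Real.norm_eq_abs, abs_of_pos (by positivity)]
  congr 1
  field_simp

theorem cE_scale {δ : ℝ} (hδ : 0 < δ) : cE (EuclideanSpace ℝ (Fin n)) δ =
    δ ^ Module.finrank ℝ (EuclideanSpace ℝ (Fin n)) * cE (EuclideanSpace ℝ (Fin n)) 1 := by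
  have h1 : ∀ z : EuclideanSpace ℝ (Fin n), kern δ z 0 =
      (fun w => kern 1 w (0 : EuclideanSpace ℝ (Fin n))) (δ⁻¹ • z) := by
    intro z
    rw [kern_comm, kern_scale hδ, sub_zero]
  rw [cE, cE]
  simp only [h1]
  have h2 := Measure.integral_comp_smul (volume : Measure (EuclideanSpace ℝ (Fin n)))
    (fun w => kern 1 w (0 : EuclideanSpace ℝ (Fin n))) δ⁻¹
  rw [h2, inv_pow, inv_inv, abs_of_pos (by positivity), smul_eq_mul]

theorem tendsto_ZZ {K : Set (EuclideanSpace ℝ (Fin n))} {R : ℝ} (hK : CB K R)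
    {y : EuclideanSpace ℝ (Fin n)} (hy : y ∉ frontier K) :
    Tendsto (fun m : ℕ => (cE (EuclideanSpace ℝ (Fin n)) (1 / ((m:ℝ) + 1)))⁻¹ *
      ZZ K (1 / ((m:ℝ) + 1)) y) atTop (𝓝 (K.indicator (fun _ => (1:ℝ)) y)) := by
  have hg : Integrable (K.indicator (fun _ => (1:ℝ))) := by
    rw [integrable_indicator_iff hK.meas]
    exact (integrableOn_const_iff (C := (1:ℝ))).2 (Or.inr hK.lt_top)
  have hc : ContinuousAt (K.indicator (fun _ => (1:ℝ))) y := by
    have hy' : y ∈ interior K ∪ interior Kᶜ := by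
      rw [← compl_frontier_eq_union_interior]
      exact hy
    rcases hy' with h | h
    · have he : K.indicator (fun _ => (1:ℝ)) =ᶠ[𝓝 y] fun _ => 1 := by
        filter_upwards [mem_interior_iff_mem_nhds.1 h] with x hx
        exact indicator_of_mem hx _
      exact (continuousAt_congr he).2 continuousAt_const
    · have he : K.indicator (fun _ => (1:ℝ)) =ᶠ[𝓝 y] fun _ => 0 := by
        filter_upwards [mem_interior_iff_mem_nhds.1 h] with x hx
        exact indicator_of_notMem hx _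
      exact (continuousAt_congr he).2 continuousAt_const
  have h := tendsto_integral_comp_smul_smul_of_integrable' (μ := volume) gs_nonneg gs_integral
    gs_decay hg hc
  have h2 : Tendsto (fun m : ℕ => (m:ℝ) + 1) atTop atTop :=
    tendsto_natCast_atTop_atTop.atTop_add tendsto_const_nhds
  refine (h.comp h2).congr fun m => ?_
  simp only [Function.comp]
  set c : ℝ := (m:ℝ) + 1 with hcdef
  have hc0 : 0 < c := by positivity
  have hd0 : 0 < 1 / c := by positivity
  rw [ZZ, ← integral_const_mul, ← integral_indicator hK.meas]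
  congr 1
  ext x
  by_cases hx : x ∈ K
  · rw [indicator_of_mem hx, indicator_of_mem hx, smul_eq_mul, mul_one, cE_scale hd0,
      kern_scale hd0, gs]
    have h3 : (1 / c)⁻¹ = c := by simp
    rw [mul_inv, ← inv_pow, h3]
    ring
  · rw [indicator_of_notMem hx, indicator_of_notMem hx, smul_zero]

/-- `zz` preserves the volume. -/
theorem mp_zz : MeasurePreserving (N8.zz (n := n)) volume volume := by
  have h1 : MeasurePreserving (fun x : Fin n → ℝ => x - fun _ => Real.pi / 2) volume volume :=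
    measurePreserving_sub_right volume _
  have h2 := (EuclideanSpace.volume_preserving_symm_measurableEquiv_toLp (Fin n)).symm
  exact h2.comp h1

theorem me_zz : MeasurableEmbedding (N8.zz (n := n)) := by
  have h : (N8.zz (n := n)) = ((Homeomorph.subRight (fun _ : Fin n => Real.pi / 2)).trans
      (PiLp.continuousLinearEquiv 2 ℝ (fun _ : Fin n => ℝ)).symm.toHomeomorph) := rfl
  rw [h]
  exact Homeomorph.measurableEmbedding _

end N7

theorem WW_spec {K : Set (EuclideanSpace ℝ (Fin n))} {R ε : ℝ} (hε : 0 < ε) (hK : CB K R)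
    (hinv : RInv K) :
    ContDiff ℝ 2 (WW K ε) ∧ HessGe (WW K ε) (fun _ _ => 0) ∧ ∀ i x, WW K ε (rf i x) = WW K ε x := by
  refine ⟨N7.contDiff_WW hε hK, ?_, N7.WW_even hinv⟩
  intro x _ v
  rw [N7.second_dir (N7.contDiff_WW hε hK)]
  simp only [zero_mul, Finset.sum_const_zero]
  exact N7.hess_WW hε hK x v

/-- Integrals over the box against the smoothed weight converge to integrals over the body. -/
theorem WW_tendsto {K : Set (EuclideanSpace ℝ (Fin n))} {R : ℝ} (hK : CB K R)
    (hb : ∀ x ∈ K, ∀ i, |x i| ≤ Real.pi / 2) {F : EuclideanSpace ℝ (Fin n) → ℝ}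
    (hF : Continuous F) :
    Filter.Tendsto (fun m : ℕ => (cE (EuclideanSpace ℝ (Fin n)) (1 / ((m:ℝ) + 1)))⁻¹ *
      ∫ x in QQ n, F (WithLp.toLp 2 (fun i => zc i x)) * Real.exp (-WW K (1 / ((m:ℝ) + 1)) x))
      Filter.atTop (nhds (∫ x in K, F x)) := by
  have hcz : Continuous (N8.zz (n := n)) := N8.contDiff_zz.continuous
  have hm0 : ∀ m : ℕ, (0:ℝ) < 1 / ((m:ℝ) + 1) := fun m => by positivity
  have hexp : ∀ (m : ℕ) (x : Fin n → ℝ), Real.exp (-WW K (1 / ((m:ℝ) + 1)) x) =
      ZZ K (1 / ((m:ℝ) + 1)) (N8.zz x) := by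
    intro m x
    change Real.exp (- -Real.log (ZZ K (1 / ((m:ℝ) + 1)) (N8.zz x))) = _
    rw [neg_neg, Real.exp_log (ZZ_pos (hm0 m) hK.meas hK.vol0 _)]
  -- the limit as an integral over the box
  have hlim : ∫ x in K, F x = ∫ x in QQ n, F (N8.zz x) * K.indicator (fun _ => (1:ℝ)) (N8.zz x) := by
    rw [← N7.mp_zz.setIntegral_preimage_emb N7.me_zz F K]
    have hsub : N8.zz ⁻¹' K ⊆ QQ n := by
      intro x hx
      have h1 : ∀ i, |zc i x| ≤ Real.pi / 2 := fun i => hb _ hx i
      constructor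
      · intro i
        have := (abs_le.1 (h1 i)).1
        simp only [zc] at this
        simp only [Pi.zero_apply]
        linarith
      · intro i
        have := (abs_le.1 (h1 i)).2
        simp only [zc] at this
        linarith
    have h2 : ∀ x : Fin n → ℝ, F (N8.zz x) * K.indicator (fun _ => (1:ℝ)) (N8.zz x) =
        (N8.zz ⁻¹' K).indicator (fun x => F (N8.zz x)) x := by
      intro x
      by_cases hx : N8.zz x ∈ K
      · rw [indicator_of_mem hx, indicator_of_mem (by exact hx), mul_one]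
      · rw [indicator_of_notMem hx, indicator_of_notMem (by exact hx), mul_zero]
    simp only [h2]
    rw [setIntegral_indicator (N7.me_zz.measurable hK.meas), inter_eq_self_of_subset_right hsub]
  rw [hlim]
  have hcong : ∀ m : ℕ, (cE (EuclideanSpace ℝ (Fin n)) (1 / ((m:ℝ) + 1)))⁻¹ *
      ∫ x in QQ n, F (WithLp.toLp 2 (fun i => zc i x)) * Real.exp (-WW K (1 / ((m:ℝ) + 1)) x) =
      ∫ x in QQ n, F (N8.zz x) * ((cE (EuclideanSpace ℝ (Fin n)) (1 / ((m:ℝ) + 1)))⁻¹ *
        ZZ K (1 / ((m:ℝ) + 1)) (N8.zz x)) := by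
    intro m
    rw [← integral_const_mul]
    congr 1
    ext x
    rw [hexp]
    change _ * (F (N8.zz x) * _) = _
    ring
  simp only [hcong]
  obtain ⟨B, hB⟩ := (isCompact_Icc (a := (0 : Fin n → ℝ)) (b := fun _ => Real.pi)).exists_bound_of_continuousOn
    (hF.comp hcz).continuousOn
  have hQf : volume (QQ n) < ⊤ := (isCompact_Icc (a := (0 : Fin n → ℝ)) (b := fun _ => Real.pi)).measure_lt_top
  have hQm : MeasurableSet (QQ n) := measurableSet_Icc
  haveI : IsFiniteMeasure (volume.restrict (QQ n)) := ⟨by simpa using hQf⟩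
  have hZle : ∀ (m : ℕ) (y : EuclideanSpace ℝ (Fin n)),
      |(cE (EuclideanSpace ℝ (Fin n)) (1 / ((m:ℝ) + 1)))⁻¹ * ZZ K (1 / ((m:ℝ) + 1)) y| ≤ 1 := by
    intro m y
    have h1 := ZZ_pos (hm0 m) hK.meas hK.vol0 y
    have h2 := cE_pos (E := EuclideanSpace ℝ (Fin n)) (hm0 m)
    rw [abs_of_pos (by positivity), inv_mul_le_iff₀ h2, mul_one, ← ZZ_univ y, ZZ, ZZ]
    exact setIntegral_mono_set (integrable_kern (hm0 m) y).integrableOn
      (Eventually.of_forall fun x => (kern_pos _ _ _).le) (Eventually.of_forall fun x _ => mem_univ x)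
  refine tendsto_integral_of_dominated_convergence (fun _ => B) ?_ (integrable_const _) ?_ ?_
  · intro m
    have hcZ : Continuous (ZZ K (1 / ((m:ℝ) + 1))) := by
      have : ZZ K (1 / ((m:ℝ) + 1)) = NN K (1 / ((m:ℝ) + 1)) (fun _ => 1) := by
        ext z; exact ZZ_eq_NN z
      rw [this, continuous_iff_continuousAt]
      exact fun y => (hasFDerivAt_NN (hm0 m) hK.meas hK.sub (ψ := fun _ => (1:ℝ)) (M := 1)
        measurable_const (fun x _ => by simp) y).continuousAt
    exact ((hF.comp hcz).mul (continuous_const.mul (hcZ.comp hcz))).aestronglyMeasurable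
  · intro m
    filter_upwards [ae_restrict_mem hQm] with x hx
    rw [norm_mul]
    have h1 := hB x hx
    have h2 := hZle m (N8.zz x)
    calc ‖F (N8.zz x)‖ * _ ≤ B * 1 := mul_le_mul h1 h2 (abs_nonneg _) ((norm_nonneg _).trans h1)
      _ = B := mul_one B
  · have hfr : ∀ᵐ x : Fin n → ℝ, N8.zz x ∉ frontier K := by
      have h1 : ∀ᵐ y : EuclideanSpace ℝ (Fin n), y ∉ frontier K := by
        rw [← measure_eq_zero_iff_ae_notMem]
        exact hK.conv.addHaar_frontier volume
      exact N7.mp_zz.quasiMeasurePreserving.ae h1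
    filter_upwards [ae_restrict_of_ae hfr] with x hx
    exact (N7.tendsto_ZZ hK hx).const_mul _

end Pool.Agent.H84.Unc
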