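import Pool.Agent.H84.KlsClass

/-!
# The reduction with a prescribed direction
-/

set_option autoImplicit false
set_option linter.unusedSectionVars false
set_option linter.unusedVariables false
set_option linter.style.haveILetI false

open MeasureTheory Measure Set Filter Topology
open scoped ENNReal NNReal Pointwise

namespace Pool.Agent.H84

variable {E : Type*} [NormedAddCommGroup E] [InnerProductSpace ℝ E]
    [FiniteDimensional ℝ E] [MeasurableSpace E] [BorelSpace E]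

/-- **Reduction** with a prescribed direction `a` of second moment `s²`. -/
theorem kls_reduce_at {n : ℕ} (hn : Module.finrank ℝ E = n + 1) {Ω : Set E} (hΩo : IsOpen Ω)
    (hΩc : Convex ℝ Ω) (hΩb : Bornology.IsBounded Ω) (hsymm : ∀ x ∈ Ω, -x ∈ Ω)
    (hne : Ω.Nonempty) {a : E} (ha : ‖a‖ = 1) {s : ℝ} (hs : 0 < s)
    (hsa : ∫ x in Ω, (inner ℝ a x) ^ 2 = s ^ 2 * volume.real Ω)
    {c : ℝ} (hc : 0 < c) (hPC : PC Ω (c * s)) {S : Set E} (hS : MeasurableSet S) (hSΩ : S ⊆ Ω)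
    (hSv : volume S = volume Ω / 2) :
    μH[(n:ℝ)] {x | x ∈ Ω ∧ inner ℝ a x = (0:ℝ)}
      ≤ ENNReal.ofReal (7300 * c) * μH[(n:ℝ)] (Ω ∩ frontier S) := by
  have h0 : (0:E) ∈ Ω := by
    obtain ⟨x, hx⟩ := hne
    have := hΩc hx (hsymm x hx) (a := 1/2) (b := 1/2) (by norm_num) (by norm_num) (by norm_num)
    simpa using this
  have hΩv0 : volume Ω ≠ 0 := (hΩo.measure_pos volume ⟨0, h0⟩).ne'
  have hΩvt : volume Ω ≠ ⊤ := hΩb.measure_lt_top.ne
  set V := volume.real Ω with hV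
  have hV0 : 0 < V := ENNReal.toReal_pos hΩv0 hΩvt
  have hVe : volume Ω = ENNReal.ofReal V := (ENNReal.ofReal_toReal hΩvt).symm
  have hSv' : volume.real S = V / 2 := by
    rw [Measure.real, hSv, ENNReal.toReal_div, hV, Measure.real]
    norm_num
  have h1 := kls_machine hn hΩo hΩc hΩb h0 subset_rfl hΩc hΩo.measurableSet (Λ := c * s)
    (by positivity) (by rw [← hV]; linarith) hPC hS hSΩ hSv'
  have h2 := section_bound_gen hn hΩo hΩc hΩb hsymm a ha
  have hI : ∫⁻ x in Ω, ENNReal.ofReal ((inner ℝ a x) ^ 2) = ENNReal.ofReal (s ^ 2 * V) := by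
    rw [← hsa, ofReal_integral_eq_lintegral_ofReal _ (Eventually.of_forall fun x => by positivity)]
    obtain ⟨R, hR⟩ := hΩb.subset_closedBall 0
    have hxR : ∀ x ∈ Ω, ‖x‖ ≤ R := fun x hx => by simpa using hR hx
    refine Measure.integrableOn_of_bounded (M := (‖a‖ * R) ^ 2) hΩvt (by fun_prop) ?_
    refine (ae_restrict_iff' hΩo.measurableSet).2 (Eventually.of_forall fun x hx => ?_)
    rw [norm_pow]
    refine pow_le_pow_left₀ (norm_nonneg _) ?_ 2
    exact (norm_inner_le_norm a x).trans (by gcongr; exact hxR x hx)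
  rw [hI, hVe, ← ENNReal.ofReal_pow hV0.le, ← ENNReal.ofReal_mul (by positivity)] at h2
  set M := μHE[n] {x | x ∈ Ω ∧ inner ℝ a x = (0:ℝ)} with hM
  have hMt : M ≠ ⊤ := by
    intro h
    rw [h, ENNReal.top_pow (by norm_num), ENNReal.top_mul] at h2
    · exact absurd (top_le_iff.1 h2) ENNReal.ofReal_ne_top
    · simp only [ne_eq, ENNReal.ofReal_eq_zero, not_le]
      positivity
  have hMr : M = ENNReal.ofReal M.toReal := (ENNReal.ofReal_toReal hMt).symm
  have hMle : M ≤ ENNReal.ofReal (64 * Real.sqrt Real.pi * V / s) := by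
    rw [hMr, ← ENNReal.ofReal_pow ENNReal.toReal_nonneg, ← ENNReal.ofReal_mul (by positivity),
      ENNReal.ofReal_le_ofReal_iff (by positivity)] at h2
    rw [hMr]
    refine ENNReal.ofReal_le_ofReal ?_
    refine abs_le_of_sq_le_sq' ?_ (by positivity) |>.2
    rw [div_pow, mul_pow, mul_pow, Real.sq_sqrt Real.pi_pos.le, le_div_iff₀ (by positivity)]
    have h3 : V * (M.toReal ^ 2 * s ^ 2) ≤ V * (64 ^ 2 * Real.pi * V ^ 2) := by nlinarith
    exact le_of_mul_le_mul_left h3 hV0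
  have hpi : 64 * Real.sqrt Real.pi * 64 ≤ 7300 := by
    have h3 : Real.sqrt Real.pi ≤ 1.78 := by
      rw [Real.sqrt_le_left (by norm_num)]
      have := Real.pi_lt_d4
      norm_num
      linarith
    linarith
  have h4 : M ≤ ENNReal.ofReal (7300 * c) * μHE[n] (Ω ∩ frontier S) := by
    calc M ≤ ENNReal.ofReal (64 * Real.sqrt Real.pi * V / s) := hMle
      _ = ENNReal.ofReal (64 * Real.sqrt Real.pi / s) * volume Ω := by
          rw [hVe, ← ENNReal.ofReal_mul (by positivity)]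
          congr 1
          ring
      _ ≤ ENNReal.ofReal (64 * Real.sqrt Real.pi / s) *
          (ENNReal.ofReal (64 * (c * s)) * μHE[n] (Ω ∩ frontier S)) := by gcongr
      _ = ENNReal.ofReal (64 * Real.sqrt Real.pi * 64 * c) * μHE[n] (Ω ∩ frontier S) := by
          rw [← mul_assoc, ← ENNReal.ofReal_mul (by positivity)]
          congr 2
          field_simp
      _ ≤ _ := by gcongr
  rw [hM, Pool.H71.Bdry.μHE_apply, Pool.H71.Bdry.μHE_apply] at h4
  have hκ : (Pool.H71.Bdry.κ n : ℝ≥0∞) ≠ 0 := by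
    exact_mod_cast Pool.H71.Bdry.κ_ne_zero n
  have hκt : (Pool.H71.Bdry.κ n : ℝ≥0∞) ≠ ⊤ := ENNReal.coe_ne_top
  have h5 : (Pool.H71.Bdry.κ n : ℝ≥0∞) * μH[(n:ℝ)] {x | x ∈ Ω ∧ inner ℝ a x = (0:ℝ)}
      ≤ (Pool.H71.Bdry.κ n : ℝ≥0∞) * (ENNReal.ofReal (7300 * c) * μH[(n:ℝ)] (Ω ∩ frontier S)) := by
    calc _ ≤ _ := h4
      _ = _ := by ring
  exact (ENNReal.mul_le_mul_iff_right hκ hκt).1 h5

end Pool.Agent.H84
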