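import Pool.Agent.H84.Unc.Main
import Pool.Agent.H84.Unc.Reduce

/-!
# Linear images of unconditional bodies
-/

set_option autoImplicit false
set_option linter.unusedVariables false

open MeasureTheory Measure Set
open scoped Pointwise ENNReal

namespace Pool.Agent.H84.Unc

open Pool.Agent.H84

variable {n : ℕ}

/-- Linear change of variables. -/
theorem exists_jac (Ψ : EuclideanSpace ℝ (Fin n) ≃L[ℝ] EuclideanSpace ℝ (Fin n)) :
    ∃ D : ℝ, 0 < D ∧ ∀ (Ω : Set (EuclideanSpace ℝ (Fin n))), MeasurableSet Ω →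
      volume.real Ω = D * volume.real (Ψ ⁻¹' Ω) ∧
      ∀ F : EuclideanSpace ℝ (Fin n) → ℝ, ∫ x in Ω, F x = D * ∫ y in Ψ ⁻¹' Ω, F (Ψ y) := by
  set d : ℝ := |LinearMap.det (Ψ : EuclideanSpace ℝ (Fin n) →ₗ[ℝ] EuclideanSpace ℝ (Fin n))|
    with hd
  have hdet : LinearMap.det (Ψ : EuclideanSpace ℝ (Fin n) →ₗ[ℝ] EuclideanSpace ℝ (Fin n)) ≠ 0 :=
    (LinearEquiv.isUnit_det' Ψ.toLinearEquiv).ne_zero
  have hd0 : 0 < d := abs_pos.2 hdet
  have hmap : Measure.map Ψ (volume : Measure (EuclideanSpace ℝ (Fin n))) =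
      ENNReal.ofReal (d⁻¹) • volume := by
    have := Measure.map_linearMap_addHaar_eq_smul_addHaar
      (μ := (volume : Measure (EuclideanSpace ℝ (Fin n)))) hdet
    rw [abs_inv] at this
    exact this
  have hme : MeasurableEmbedding Ψ := Ψ.toHomeomorph.measurableEmbedding
  have hv : ∀ Ω : Set (EuclideanSpace ℝ (Fin n)), volume.real Ω = d * volume.real (Ψ ⁻¹' Ω) := by
    intro Ω
    have h1 : Measure.map Ψ (volume : Measure (EuclideanSpace ℝ (Fin n))) Ω
        = volume (Ψ ⁻¹' Ω) := hme.map_apply _ _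
    rw [hmap, Measure.smul_apply, smul_eq_mul] at h1
    rw [Measure.real, Measure.real, ← h1, ENNReal.toReal_mul, ENNReal.toReal_ofReal (by positivity),
      ← mul_assoc, mul_inv_cancel₀ hd0.ne', one_mul]
  refine ⟨d, hd0, fun Ω hΩ => ⟨hv Ω, fun F => ?_⟩⟩
  have h2 : ∫ x in Ω, F x ∂(Measure.map Ψ (volume : Measure (EuclideanSpace ℝ (Fin n))))
      = ∫ y in Ψ ⁻¹' Ω, F (Ψ y) := hme.setIntegral_map _ _
  rw [hmap, Measure.restrict_smul, integral_smul_measure, ENNReal.toReal_ofReal (by positivity),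
    smul_eq_mul] at h2
  rw [← h2, ← mul_assoc, mul_inv_cancel₀ hd0.ne', one_mul]

theorem PC_lin (Ψ : EuclideanSpace ℝ (Fin n) ≃L[ℝ] EuclideanSpace ℝ (Fin n))
    {Ω : Set (EuclideanSpace ℝ (Fin n))} (hΩ : MeasurableSet Ω) {Λ s : ℝ} {R : ℝ}
    (hK : CB (Ψ ⁻¹' Ω) R)
    (h : PC (Ψ ⁻¹' Ω) Λ) (hs : 0 ≤ s)
    (hn : ∀ l : EuclideanSpace ℝ (Fin n) →L[ℝ] ℝ,
      ‖l.comp (Ψ : EuclideanSpace ℝ (Fin n) →L[ℝ] EuclideanSpace ℝ (Fin n))‖ ≤ s * ‖l‖) :
    PC Ω (Λ * s) := by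
  obtain ⟨D, hD, hjac⟩ := exists_jac Ψ
  obtain ⟨hv, hI⟩ := hjac Ω hΩ
  intro g hg
  have hg' : ContDiff ℝ 1 (fun y => g (Ψ y)) := hg.comp Ψ.contDiff
  have key := h _ hg'
  rw [hv, hI, hI, hI]
  have hfd : ∀ y, ‖fderiv ℝ (fun y => g (Ψ y)) y‖ ≤ s * ‖fderiv ℝ g (Ψ y)‖ := by
    intro y
    have hd : DifferentiableAt ℝ g (Ψ y) := (hg.differentiable (by simp)).differentiableAt
    have h1 : fderiv ℝ (fun y => g (Ψ y)) y = (fderiv ℝ g (Ψ y)).comp
        (Ψ : EuclideanSpace ℝ (Fin n) →L[ℝ] EuclideanSpace ℝ (Fin n)) := by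
      have := (hd.hasFDerivAt.comp y
        (Ψ : EuclideanSpace ℝ (Fin n) →L[ℝ] EuclideanSpace ℝ (Fin n)).hasFDerivAt).fderiv
      exact this
    rw [h1]
    exact hn _
  have hc1 : Continuous fun y => ‖fderiv ℝ (fun y => g (Ψ y)) y‖ ^ 2 := by
    have := hg'.continuous_fderiv (by simp : (1:WithTop ℕ∞) ≠ 0)
    fun_prop
  have hc2 : Continuous fun y => ‖fderiv ℝ g (Ψ y)‖ ^ 2 := by
    have := hg.continuous_fderiv (by simp : (1:WithTop ℕ∞) ≠ 0)
    have h2 : Continuous fun y => fderiv ℝ g (Ψ y) := this.comp Ψ.continuous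
    fun_prop
  have hG : ∫ y in Ψ ⁻¹' Ω, ‖fderiv ℝ (fun y => g (Ψ y)) y‖ ^ 2 ≤
      s ^ 2 * ∫ y in Ψ ⁻¹' Ω, ‖fderiv ℝ g (Ψ y)‖ ^ 2 := by
    rw [← integral_const_mul]
    refine setIntegral_mono_on ((hK.bm_of_cont hc1).integrableOn hK)
      ((hK.bm_of_cont (hc2.const_mul _)).integrableOn hK) hK.meas fun y _ => ?_
    rw [← mul_pow]
    exact pow_le_pow_left₀ (norm_nonneg _) (hfd y) 2
  set V := volume.real (Ψ ⁻¹' Ω)
  have hV : 0 ≤ V := measureReal_nonneg
  set A := ∫ y in Ψ ⁻¹' Ω, g (Ψ y) ^ 2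
  set B := ∫ y in Ψ ⁻¹' Ω, g (Ψ y)
  set G := ∫ y in Ψ ⁻¹' Ω, ‖fderiv ℝ g (Ψ y)‖ ^ 2
  have h3 : V * A - B ^ 2 ≤ Λ ^ 2 * (V * (s ^ 2 * G)) := by
    refine key.trans ?_
    gcongr
  calc D * V * (D * A) - (D * B) ^ 2 = D ^ 2 * (V * A - B ^ 2) := by ring
    _ ≤ D ^ 2 * (Λ ^ 2 * (V * (s ^ 2 * G))) := by gcongr
    _ = _ := by ring

theorem norm_sq_functional (m : EuclideanSpace ℝ (Fin n) →L[ℝ] ℝ) :
    ‖m‖ ^ 2 = ∑ i, (m (EuclideanSpace.single i 1)) ^ 2 := by
  obtain ⟨w, rfl⟩ := (InnerProductSpace.toDual ℝ (EuclideanSpace ℝ (Fin n))).surjective m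
  rw [LinearIsometryEquiv.norm_map, EuclideanSpace.norm_sq_eq]
  refine Finset.sum_congr rfl fun i _ => ?_
  rw [InnerProductSpace.toDual_apply_apply, Real.norm_eq_abs, sq_abs]
  congr 1
  simp [EuclideanSpace.inner_single_right]

/-- For a body in isotropic position the norm of a functional is its second moment. -/
theorem norm_sq_of_isotropic {K : Set (EuclideanSpace ℝ (Fin n))} {R : ℝ} (hK : CB K R)
    (hinv : RInv K) (hm : ∀ i, ∫ y in K, (y i) ^ 2 = volume.real K)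
    (m : EuclideanSpace ℝ (Fin n) →L[ℝ] ℝ) :
    volume.real K * ‖m‖ ^ 2 = ∫ y in K, (m y) ^ 2 := by
  set a : Fin n → ℝ := fun i => m (EuclideanSpace.single i 1) with ha
  have hmy : ∀ y, m y = ∑ i, a i * y i := by
    intro y
    have h1 : y = ∑ i, (y i) • (EuclideanSpace.single i (1:ℝ)) := by
      ext j
      simp [Finset.sum_apply, Pi.single_apply]
    conv_lhs => rw [h1]
    rw [_root_.map_sum]
    refine Finset.sum_congr rfl fun i _ => ?_
    rw [map_smul, smul_eq_mul, mul_comm]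
  have hsq : ∀ y : EuclideanSpace ℝ (Fin n), (m y) ^ 2 = ∑ i, ∑ j, (a i * a j) * (y i * y j) := by
    intro y
    rw [hmy, sq, Finset.sum_mul_sum]
    refine Finset.sum_congr rfl fun i _ => Finset.sum_congr rfl fun j _ => by ring
  have hint : ∀ i j, IntegrableOn (fun y : EuclideanSpace ℝ (Fin n) =>
      (a i * a j) * (y i * y j)) K := fun i j =>
    (hK.bm_of_cont (by fun_prop)).integrableOn hK
  simp only [hsq]
  rw [integral_finsetSum _ fun i _ => integrable_finsetSum _ fun j _ => hint i j]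
  have hcross : ∀ i j, i ≠ j → ∫ y in K, y i * y j = 0 := by
    intro i j hij
    have h := integral_sgT hinv {i} (fun y => y i * y j)
    have h2 : ∀ y : EuclideanSpace ℝ (Fin n), (sgT {i} y) i * (sgT {i} y) j = -(y i * y j) := by
      intro y
      rw [sgT_apply, sgT_apply, if_pos (by simp), if_neg (by simp [Ne.symm hij])]
      ring
    simp only [h2] at h
    rw [integral_neg] at h
    linarith
  rw [norm_sq_functional, Finset.mul_sum]
  refine Finset.sum_congr rfl fun i _ => ?_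
  rw [integral_finsetSum _ fun j _ => hint i j, Finset.sum_eq_single i]
  · rw [integral_const_mul]
    have : ∀ y : EuclideanSpace ℝ (Fin n), y i * y i = (y i) ^ 2 := fun y => by ring
    simp only [this]
    rw [hm i]
    ring
  · intro j _ hji
    rw [integral_const_mul, hcross i j (Ne.symm hji), mul_zero]
  · intro h
    exact absurd (Finset.mem_univ i) h

/-- Diagonal scaling. -/
noncomputable def diagE (t : Fin n → ℝ) (ht : ∀ i, t i ≠ 0) :
    EuclideanSpace ℝ (Fin n) ≃L[ℝ] EuclideanSpace ℝ (Fin n) :=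
  LinearEquiv.toContinuousLinearEquiv
    { toFun := fun y => WithLp.toLp 2 (fun i => t i * y i)
      invFun := fun y => WithLp.toLp 2 (fun i => (t i)⁻¹ * y i)
      map_add' := fun x y => by ext i; simp [mul_add]
      map_smul' := fun c x => by ext i; simp; ring
      left_inv := fun y => by ext i; simp [ht i]
      right_inv := fun y => by ext i; simp [ht i] }

theorem diagE_apply (t : Fin n → ℝ) (ht : ∀ i, t i ≠ 0) (y : EuclideanSpace ℝ (Fin n))
    (i : Fin n) : diagE t ht y i = t i * y i := rfl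

/-- **Poincare inequality for linear images of unconditional bodies.** -/
theorem lin_poincare {Ω : Set (EuclideanSpace ℝ (Fin n))} (hΩo : IsOpen Ω) (hΩc : Convex ℝ Ω)
    (hΩb : Bornology.IsBounded Ω) (h0 : (0 : EuclideanSpace ℝ (Fin n)) ∈ Ω)
    (Φ : EuclideanSpace ℝ (Fin n) ≃L[ℝ] EuclideanSpace ℝ (Fin n)) (hinv : RInv (Φ ⁻¹' Ω))
    {s : ℝ} (hs : 0 ≤ s)
    (hcov : ∀ v, ∫ x in Ω, (inner ℝ v x : ℝ) ^ 2 ≤ s ^ 2 * ‖v‖ ^ 2 * volume.real Ω) :
    PC Ω (400 * s) := by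
  -- preimages under linear isomorphisms are bodies
  have hCB : ∀ Ψ : EuclideanSpace ℝ (Fin n) ≃L[ℝ] EuclideanSpace ℝ (Fin n),
      ∃ R, CB (Ψ ⁻¹' Ω) R ∧ IsOpen (Ψ ⁻¹' Ω) := by
    intro Ψ
    have hop : IsOpen (Ψ ⁻¹' Ω) := hΩo.preimage Ψ.continuous
    have hbd : Bornology.IsBounded (Ψ ⁻¹' Ω) := by
      have h1 : Ψ ⁻¹' Ω = Ψ.symm '' Ω := by
        ext y
        simp only [mem_preimage, mem_image]
        constructor
        · intro h
          exact ⟨Ψ y, h, by simp⟩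
        · rintro ⟨x, hx, rfl⟩
          simpa using hx
      rw [h1]
      exact Ψ.symm.lipschitz.isBounded_image hΩb
    obtain ⟨R, hR⟩ := hbd.subset_closedBall 0
    refine ⟨R, ⟨?_, hop.measurableSet, hR, ?_⟩, hop⟩
    · exact hΩc.linear_preimage Ψ.toLinearEquiv.toLinearMap
    · exact (hop.measure_pos volume ⟨0, by simpa using h0⟩).ne'
  obtain ⟨R1, hK1, hop1⟩ := hCB Φ
  set K1 := Φ ⁻¹' Ω with hK1d
  have hV1 : 0 < volume.real K1 := ENNReal.toReal_pos hK1.vol0 hK1.lt_top.ne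
  have h01 : (0 : EuclideanSpace ℝ (Fin n)) ∈ K1 := by
    rw [hK1d, mem_preimage, map_zero]
    exact h0
  -- second moments
  have hmpos : ∀ i, 0 < ∫ y in K1, (y i) ^ 2 := by
    intro i
    have hint : IntegrableOn (fun x : EuclideanSpace ℝ (Fin n) => (x i) ^ 2) K1 :=
      (hK1.bm_of_cont (by fun_prop)).integrableOn hK1
    rw [setIntegral_pos_iff_support_of_nonneg_ae
      (Filter.Eventually.of_forall fun x => by positivity) hint]
    obtain ⟨δ, hδ, hδs⟩ := Metric.isOpen_iff.1 hop1 0 h01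
    have hopen : IsOpen (Function.support
        (fun x : EuclideanSpace ℝ (Fin n) => (x i) ^ 2) ∩ K1) := by
      refine IsOpen.inter ?_ hop1
      have : Continuous fun x : EuclideanSpace ℝ (Fin n) => (x i) ^ 2 := by fun_prop
      exact isOpen_ne.preimage this
    refine hopen.measure_pos volume ⟨EuclideanSpace.single i (δ / 2), ?_, hδs ?_⟩
    · simp only [Function.mem_support, ne_eq]
      have : (EuclideanSpace.single i (δ / 2) : EuclideanSpace ℝ (Fin n)) i = δ / 2 := by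
        simp
      rw [this]
      positivity
    · rw [Metric.mem_ball, dist_zero_right]
      have : ‖(EuclideanSpace.single i (δ / 2) : EuclideanSpace ℝ (Fin n))‖ = δ / 2 := by
        rw [PiLp.norm_single, Real.norm_of_nonneg (by positivity)]
      rw [this]
      linarith
  set t : Fin n → ℝ := fun i => Real.sqrt ((∫ y in K1, (y i) ^ 2) / volume.real K1) with ht
  have ht0 : ∀ i, 0 < t i := fun i => Real.sqrt_pos.2 (div_pos (hmpos i) hV1)
  have htne : ∀ i, t i ≠ 0 := fun i => (ht0 i).ne'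
  have ht2 : ∀ i, (t i) ^ 2 * volume.real K1 = ∫ y in K1, (y i) ^ 2 := by
    intro i
    rw [ht]
    simp only
    rw [Real.sq_sqrt (div_pos (hmpos i) hV1).le]
    field_simp
  set Ψ := (diagE t htne).trans Φ with hΨ
  obtain ⟨R0, hK0, hop0⟩ := hCB Ψ
  set K0 := Ψ ⁻¹' Ω with hK0d
  have hK01 : K0 = (diagE t htne) ⁻¹' K1 := by
    rw [hK0d, hK1d, hΨ]
    rfl
  have hinv0 : RInv K0 := by
    intro i y hy
    rw [hK01, mem_preimage] at hy ⊢
    have h1 : diagE t htne (flip i y) = flip i (diagE t htne y) := by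
      ext j
      rw [diagE_apply]
      by_cases h : j = i
      · subst h
        rw [flip_apply_self, flip_apply_self, diagE_apply]
        ring
      · rw [flip_apply_ne h, flip_apply_ne h, diagE_apply]
    rw [h1]
    exact hinv i _ hy
  obtain ⟨D, hD, hjac⟩ := exists_jac (diagE t htne)
  obtain ⟨hv1, hI1⟩ := hjac K1 hop1.measurableSet
  rw [← hK01] at hv1 hI1
  have hm0 : ∀ i, ∫ y in K0, (y i) ^ 2 = volume.real K0 := by
    intro i
    have h1 := hI1 (fun y => (y i) ^ 2)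
    rw [← ht2 i, hv1] at h1
    have h2 : ∀ y : EuclideanSpace ℝ (Fin n), (diagE t htne y i) ^ 2 = (t i) ^ 2 * (y i) ^ 2 := by
      intro y
      rw [diagE_apply, mul_pow]
    simp only [h2] at h1
    rw [integral_const_mul] at h1
    have h3 : 0 < D * (t i) ^ 2 := by have := ht0 i; positivity
    have h4 : (D * (t i) ^ 2) * volume.real K0 = (D * (t i) ^ 2) * ∫ y in K0, (y i) ^ 2 := by
      linarith
    exact (mul_left_cancel₀ h3.ne' h4).symm
  have hPC0 : PC K0 (400 * 1) := by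
    refine unc_poincare hK0 hinv0 one_pos fun i => ?_
    rw [hm0 i]
    linarith
  rw [mul_one] at hPC0
  refine PC_lin Ψ hΩo.measurableSet hK0 hPC0 hs fun l => ?_
  -- operator norm
  have hV0 : 0 < volume.real K0 := ENNReal.toReal_pos hK0.vol0 hK0.lt_top.ne
  obtain ⟨D', hD', hjac'⟩ := exists_jac Ψ
  obtain ⟨hv, hI⟩ := hjac' Ω hΩo.measurableSet
  have h1 := norm_sq_of_isotropic hK0 hinv0 hm0
    (l.comp (Ψ : EuclideanSpace ℝ (Fin n) →L[ℝ] EuclideanSpace ℝ (Fin n)))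
  obtain ⟨w, rfl⟩ := (InnerProductSpace.toDual ℝ (EuclideanSpace ℝ (Fin n))).surjective l
  have h2 := hcov w
  have h3 := hI (fun x => (inner ℝ w x : ℝ) ^ 2)
  rw [h3, hv] at h2
  have h4 : ∫ y in K0, ((((InnerProductSpace.toDual ℝ (EuclideanSpace ℝ (Fin n))) w).comp
      (Ψ : EuclideanSpace ℝ (Fin n) →L[ℝ] EuclideanSpace ℝ (Fin n))) y) ^ 2
      = ∫ y in K0, (inner ℝ w (Ψ y) : ℝ) ^ 2 := rfl
  rw [h4] at h1
  rw [LinearIsometryEquiv.norm_map]
  apply le_of_sq_le_sq _ (by positivity)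
  rw [mul_pow]
  have h5 : (D' * volume.real K0) * ‖((InnerProductSpace.toDual ℝ (EuclideanSpace ℝ (Fin n))) w).comp
      (Ψ : EuclideanSpace ℝ (Fin n) →L[ℝ] EuclideanSpace ℝ (Fin n))‖ ^ 2 ≤
      (D' * volume.real K0) * (s ^ 2 * ‖w‖ ^ 2) := by
    rw [mul_assoc, h1]
    linarith
  exact le_of_mul_le_mul_left h5 (by positivity)

end Pool.Agent.H84.Unc
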