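import Pool.Agent.H84.Duality

/-!
# Unconditional convex bodies: shared definitions
-/

set_option autoImplicit false

open MeasureTheory Set

namespace Pool.Agent.H84.Unc

open Pool.Agent.H84

/-! ### The box -/

/-- The box `[0, π]^n`. -/
def QQ (n : ℕ) : Set (Fin n → ℝ) := Set.Icc 0 (fun _ => Real.pi)

/-- Partial derivative. -/
noncomputable def pd {n : ℕ} (i : Fin n) (f : (Fin n → ℝ) → ℝ) (x : Fin n → ℝ) : ℝ :=
  fderiv ℝ f x (Pi.single i 1)

/-- Squared length of the gradient. -/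
noncomputable def gsq {n : ℕ} (f : (Fin n → ℝ) → ℝ) (x : Fin n → ℝ) : ℝ := ∑ i, (pd i f x) ^ 2

/-- The operator `Δ - ∇U · ∇`. -/
noncomputable def LL {n : ℕ} (U u : (Fin n → ℝ) → ℝ) (x : Fin n → ℝ) : ℝ :=
  (∑ i, pd i (pd i u) x) - ∑ i, pd i U x * pd i u x

/-- Poincare inequality for the weight `exp (-U)` on the box. -/
def BoxPC {n : ℕ} (U : (Fin n → ℝ) → ℝ) (L : ℝ) : Prop :=
  ∀ f : (Fin n → ℝ) → ℝ, ContDiff ℝ 1 f →
    (∫ x in QQ n, f x ^ 2 * Real.exp (-U x)) * (∫ x in QQ n, Real.exp (-U x))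
      - (∫ x in QQ n, f x * Real.exp (-U x)) ^ 2
      ≤ L * ((∫ x in QQ n, gsq f x * Real.exp (-U x)) * ∫ x in QQ n, Real.exp (-U x))

/-- Cosine monomials. -/
noncomputable def cosm {n : ℕ} (k : Fin n → ℕ) (x : Fin n → ℝ) : ℝ :=
  ∏ i, Real.cos (k i * x i)

/-- The space of cosine polynomials of degree at most `N` in each variable. -/
def VV (n N : ℕ) : Submodule ℝ ((Fin n → ℝ) → ℝ) :=
  Submodule.span ℝ {f | ∃ k : Fin n → ℕ, (∀ i, k i ≤ N) ∧ f = cosm k}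

/-- The Neumann conditions on the box, for `u` and its derivatives. -/
def Neum {n : ℕ} (u : (Fin n → ℝ) → ℝ) : Prop :=
  ∀ (j : Fin n) (x : Fin n → ℝ), x ∈ QQ n → (x j = 0 ∨ x j = Real.pi) →
    pd j u x = 0 ∧ ∀ i, i ≠ j → pd j (pd i u) x = 0

/-- `Hess U ≥ diag T` on the box. -/
def HessGe {n : ℕ} (U : (Fin n → ℝ) → ℝ) (T : Fin n → (Fin n → ℝ) → ℝ) : Prop :=
  ∀ x ∈ QQ n, ∀ v : Fin n → ℝ,
    ∑ i, T i x * v i ^ 2 ≤ ∑ i, ∑ j, pd i (pd j U) x * v i * v j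

/-- The reflection of the box in the `i`-th coordinate. -/
noncomputable def rf {n : ℕ} (i : Fin n) (x : Fin n → ℝ) : Fin n → ℝ :=
  Function.update x i (Real.pi - x i)

/-- Centred coordinate. -/
noncomputable def zc {n : ℕ} (i : Fin n) (x : Fin n → ℝ) : ℝ := x i - Real.pi / 2

/-- The tilt of the `i`-th coordinate. -/
noncomputable def tf {n : ℕ} (φ : ℝ) (i : Fin n) (x : Fin n → ℝ) : ℝ := Real.tanh (φ * zc i x)

/-- The tilted potential. -/
noncomputable def UU {n : ℕ} (W : (Fin n → ℝ) → ℝ) (φ : ℝ) (x : Fin n → ℝ) : ℝ :=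
  W x - ∑ i, Real.log (1 + tf φ i x)

/-! ### Bodies -/

/-- Change of the sign of the `i`-th coordinate. -/
noncomputable def flip {n : ℕ} (i : Fin n) (x : EuclideanSpace ℝ (Fin n)) :
    EuclideanSpace ℝ (Fin n) :=
  WithLp.toLp 2 (Function.update (fun j => x j) i (-(x i)))

/-- Invariance under all coordinate reflections. -/
def RInv {n : ℕ} (K : Set (EuclideanSpace ℝ (Fin n))) : Prop := ∀ i, ∀ x ∈ K, flip i x ∈ K

/-- The tilting density on `ℝ^n`. -/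
noncomputable def gt {n : ℕ} (φ : ℝ) (x : EuclideanSpace ℝ (Fin n)) : ℝ :=
  ∏ i, (1 + Real.tanh (φ * x i))

/-- Poincare inequality for the tilted uniform measure on `K`. -/
def TiltPC {n : ℕ} (K : Set (EuclideanSpace ℝ (Fin n))) (φ C : ℝ) : Prop :=
  ∀ f : EuclideanSpace ℝ (Fin n) → ℝ, ContDiff ℝ 1 f →
    (∫ x in K, f x ^ 2 * gt φ x) * (∫ x in K, gt φ x) - (∫ x in K, f x * gt φ x) ^ 2
      ≤ C * ((∫ x in K, ‖fderiv ℝ f x‖ ^ 2 * gt φ x) * ∫ x in K, gt φ x)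

end Pool.Agent.H84.Unc
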