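import Pool.Agent.H84.Unc.Defs

set_option autoImplicit false

open MeasureTheory Set Filter Topology

namespace Pool.Agent.H84.Unc.Bx

open Pool.Agent.H84 Pool.Agent.H84.Unc

variable {n : ℕ}

theorem QQ_compact : IsCompact (QQ n) := isCompact_Icc

theorem QQ_meas : MeasurableSet (QQ n) := measurableSet_Icc

theorem int_QQ {F : (Fin n → ℝ) → ℝ} (hF : Continuous F) : IntegrableOn F (QQ n) :=
  hF.continuousOn.integrableOn_compact QQ_compact

theorem vol_QQ_ne_zero : volume (QQ n) ≠ 0 := by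
  rw [QQ, Real.volume_Icc_pi]
  rw [Finset.prod_ne_zero_iff]
  intro i _
  simp [Real.pi_pos]

theorem integral_pos_QQ {F : (Fin n → ℝ) → ℝ} (hF : Continuous F) (h0 : ∀ x, 0 < F x) :
    0 < ∫ x in QQ n, F x := by
  rw [setIntegral_pos_iff_support_of_nonneg_ae (Eventually.of_forall fun x => (h0 x).le)
    (int_QQ hF)]
  have : Function.support F = univ := by
    ext x
    simp [(h0 x).ne']
  rw [this, univ_inter]
  exact pos_iff_ne_zero.2 vol_QQ_ne_zero

theorem integral_nonneg_QQ {F : (Fin n → ℝ) → ℝ} (h0 : ∀ x ∈ QQ n, 0 ≤ F x) :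
    0 ≤ ∫ x in QQ n, F x := setIntegral_nonneg QQ_meas h0

theorem integral_mono_QQ {F G : (Fin n → ℝ) → ℝ} (hF : Continuous F) (hG : Continuous G)
    (h : ∀ x ∈ QQ n, F x ≤ G x) : ∫ x in QQ n, F x ≤ ∫ x in QQ n, G x :=
  setIntegral_mono_on (int_QQ hF) (int_QQ hG) QQ_meas h

theorem integral_add_QQ {F G : (Fin n → ℝ) → ℝ} (hF : Continuous F) (hG : Continuous G) :
    ∫ x in QQ n, (F x + G x) = (∫ x in QQ n, F x) + ∫ x in QQ n, G x :=
  integral_add (int_QQ hF) (int_QQ hG)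

theorem integral_sub_QQ {F G : (Fin n → ℝ) → ℝ} (hF : Continuous F) (hG : Continuous G) :
    ∫ x in QQ n, (F x - G x) = (∫ x in QQ n, F x) - ∫ x in QQ n, G x :=
  integral_sub (int_QQ hF) (int_QQ hG)

/-- Cauchy-Schwarz on the box. -/
theorem cs_QQ {f g ρ : (Fin n → ℝ) → ℝ} (hf : Continuous f) (hg : Continuous g)
    (hρ : Continuous ρ) (h0 : ∀ x, 0 ≤ ρ x) :
    (∫ x in QQ n, f x * g x * ρ x) ^ 2 ≤
      (∫ x in QQ n, f x ^ 2 * ρ x) * ∫ x in QQ n, g x ^ 2 * ρ x := by
  set A := ∫ x in QQ n, f x ^ 2 * ρ x with hA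
  set B := ∫ x in QQ n, f x * g x * ρ x with hB
  set C := ∫ x in QQ n, g x ^ 2 * ρ x with hC
  have key : ∀ s : ℝ, 0 ≤ A * (s * s) + (2 * B) * s + C := by
    intro s
    have h1 : 0 ≤ ∫ x in QQ n, (s * f x + g x) ^ 2 * ρ x :=
      integral_nonneg fun x => mul_nonneg (sq_nonneg _) (h0 x)
    have h2 : ∫ x in QQ n, (s * f x + g x) ^ 2 * ρ x =
        ∫ x in QQ n, ((s * s) * (f x ^ 2 * ρ x) + (2 * s) * (f x * g x * ρ x)) + g x ^ 2 * ρ x := by
      congr 1
      ext x
      ring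
    rw [h2, integral_add_QQ (by fun_prop) (by fun_prop), integral_add_QQ (by fun_prop)
      (by fun_prop), integral_const_mul, integral_const_mul] at h1
    linarith
  have := discrim_le_zero key
  rw [discrim] at this
  nlinarith

/-! ### Partial derivatives -/

theorem continuous_pd {f : (Fin n → ℝ) → ℝ} (hf : ContDiff ℝ 1 f) (i : Fin n) :
    Continuous (pd i f) := by
  unfold pd
  exact (hf.continuous_fderiv one_ne_zero).clm_apply continuous_const

theorem contDiff_pd {f : (Fin n → ℝ) → ℝ} {m : ℕ} (hf : ContDiff ℝ (m + 1 : ℕ) f) (i : Fin n) :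
    ContDiff ℝ m (pd i f) := by
  unfold pd
  exact (hf.fderiv_right (m := m) (by norm_cast)).clm_apply contDiff_const

theorem pd_add {f g : (Fin n → ℝ) → ℝ} {x : Fin n → ℝ} (hf : DifferentiableAt ℝ f x)
    (hg : DifferentiableAt ℝ g x) (i : Fin n) :
    pd i (fun x => f x + g x) x = pd i f x + pd i g x := by
  unfold pd
  rw [fderiv_fun_add hf hg]
  rfl

theorem pd_sub {f g : (Fin n → ℝ) → ℝ} {x : Fin n → ℝ} (hf : DifferentiableAt ℝ f x)
    (hg : DifferentiableAt ℝ g x) (i : Fin n) :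
    pd i (fun x => f x - g x) x = pd i f x - pd i g x := by
  unfold pd
  rw [fderiv_fun_sub hf hg]
  rfl

theorem pd_const_mul {f : (Fin n → ℝ) → ℝ} {x : Fin n → ℝ} (hf : DifferentiableAt ℝ f x)
    (c : ℝ) (i : Fin n) : pd i (fun x => c * f x) x = c * pd i f x := by
  unfold pd
  rw [fderiv_const_mul hf]
  rfl

theorem pd_sub_const {f : (Fin n → ℝ) → ℝ} {x : Fin n → ℝ} (c : ℝ) (i : Fin n) :
    pd i (fun x => f x - c) x = pd i f x := by
  unfold pd
  rw [fderiv_sub_const]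

theorem continuous_gsq {f : (Fin n → ℝ) → ℝ} (hf : ContDiff ℝ 1 f) : Continuous (gsq f) := by
  unfold gsq
  exact continuous_finsetSum _ fun i _ => (continuous_pd hf i).pow 2

theorem gsq_nonneg (f : (Fin n → ℝ) → ℝ) (x : Fin n → ℝ) : 0 ≤ gsq f x :=
  Finset.sum_nonneg fun i _ => sq_nonneg _

theorem continuous_LL {U u : (Fin n → ℝ) → ℝ} (hU : ContDiff ℝ 1 U) (hu : ContDiff ℝ 2 u) :
    Continuous (LL U u) := by
  unfold LL
  refine Continuous.sub ?_ ?_
  · exact continuous_finsetSum _ fun i _ =>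
      continuous_pd (contDiff_pd (m := 1) (by exact_mod_cast hu) i) i
  · exact continuous_finsetSum _ fun i _ =>
      (continuous_pd hU i).mul (continuous_pd (hu.of_le (by norm_num)) i)

theorem boxPC_mono {U : (Fin n → ℝ) → ℝ} {L L' : ℝ} (h : BoxPC U L) (hle : L ≤ L') :
    BoxPC U L' := by
  intro f hf
  refine (h f hf).trans ?_
  refine mul_le_mul_of_nonneg_right hle ?_
  refine mul_nonneg ?_ (integral_nonneg fun x => (Real.exp_pos _).le)
  exact integral_nonneg fun x => mul_nonneg (gsq_nonneg f x) (Real.exp_pos _).le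

end Pool.Agent.H84.Unc.Bx
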