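import Pool.Agent.H84.Unc.Core
import Pool.Agent.H74.Unc.N8
import Pool.Agent.H84.Unc.N7

set_option autoImplicit false

open MeasureTheory Set

namespace Pool.Agent.H84.Unc

open Pool.Agent.H84

variable {n : ℕ}

/-- From the box to the body (helper74). -/
theorem body_tilt {K : Set (EuclideanSpace ℝ (Fin n))} {R : ℝ} (hK : CB K R) (hinv : RInv K)
    (hb : ∀ x ∈ K, ∀ i, |x i| ≤ Real.pi / 2) {φ M : ℝ} (hφ : 0 < φ) (hM : 1 ≤ M)
    (hmom : ∀ i, ∫ x in K, Real.exp (12 * φ * |x i|) < M * volume.real K) :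
    TiltPC K φ (18 * M / φ ^ 2) := by
  refine N8.body_tilt_aux (V := fun m : ℕ => WW K (1 / ((m:ℝ) + 1)))
    (c := fun m : ℕ => (cE (EuclideanSpace ℝ (Fin n)) (1 / ((m:ℝ) + 1)))⁻¹)
    (fun m => inv_pos.mpr (cE_pos (by positivity))) (fun F hF => WW_tendsto hK hb hF) hmom
    (fun m hm => ?_)
  obtain ⟨h1, h2, h3⟩ := WW_spec (K := K) (ε := 1 / ((m:ℝ) + 1)) (by positivity) hK hinv
  exact box_core h1 h2 h3 hφ hM hm

end Pool.Agent.H84.Unc
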