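import Pool.Agent.H23.Unc.N3b
import Pool.Agent.H94.Unc.N1b

/-!
# UNC2: Poincare inequalities on the box from coercivity
-/

set_option autoImplicit false

open MeasureTheory Set

namespace Pool.Agent.H84.Unc

open Pool.Agent.H84

variable {n : ℕ}

theorem boxPC_of_coer {U : (Fin n → ℝ) → ℝ} (hU : ContDiff ℝ 2 U)
    {t : ℝ} (ht : 0 < t)
    (hH : HessGe U (fun _ _ => t)) {k : ℝ} (hk : 0 < k)
    (hc : ∀ (N : ℕ), ∀ u ∈ VV n N, k * ∫ x in QQ n, gsq u x * Real.exp (-U x) ≤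
      ∫ x in QQ n, (LL U u x) ^ 2 * Real.exp (-U x)) : BoxPC U (1 / k) :=
  N3.boxPC_of_coer_of (fun h hh N => jackson hh N) hU ht hH hk hc

theorem boxPC_hess {U : (Fin n → ℝ) → ℝ} (hU : ContDiff ℝ 2 U) {t : ℝ}
    (ht : 0 < t) (hH : HessGe U (fun _ _ => t)) : BoxPC U (1 / t) :=
  N3.boxPC_hess_of (fun h hh N => jackson hh N) hU ht hH

end Pool.Agent.H84.Unc
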