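import Pool.Agent.H97.Unc.N2

/-!
# Calculus of the tilt
-/

set_option autoImplicit false

open MeasureTheory Set

namespace Pool.Agent.H84.Unc

open Pool.Agent.H84

variable {n : ℕ}

namespace Tilt

theorem one_add_tanh (u : ℝ) : 1 + Real.tanh u = Real.exp u / Real.cosh u := by
  have h := Real.cosh_pos u
  rw [Real.tanh_eq_sinh_div_cosh, ← Real.cosh_add_sinh]
  field_simp

theorem one_add_tanh_pos (u : ℝ) : 0 < 1 + Real.tanh u := by
  rw [one_add_tanh]
  exact div_pos (Real.exp_pos u) (Real.cosh_pos u)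

theorem log_one_add_tanh (u : ℝ) : Real.log (1 + Real.tanh u) = u - Real.log (Real.cosh u) := by
  rw [one_add_tanh, Real.log_div (Real.exp_pos u).ne' (Real.cosh_pos u).ne', Real.log_exp]

theorem hasDerivAt_tanh (u : ℝ) : HasDerivAt Real.tanh (1 - Real.tanh u ^ 2) u := by
  have h := Real.cosh_pos u
  have h1 := (Real.hasDerivAt_sinh u).div (Real.hasDerivAt_cosh u) h.ne'
  have h2 : Real.tanh = fun y => Real.sinh y / Real.cosh y := by
    ext y; exact Real.tanh_eq_sinh_div_cosh y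
  have h3 : 1 - Real.tanh u ^ 2 =
      (Real.cosh u * Real.cosh u - Real.sinh u * Real.sinh u) / Real.cosh u ^ 2 := by
    rw [Real.tanh_eq_sinh_div_cosh]
    field_simp
  rw [h3, h2]
  exact h1

theorem hasDerivAt_log_cosh (u : ℝ) :
    HasDerivAt (fun y => Real.log (Real.cosh y)) (Real.tanh u) u := by
  have h := (Real.hasDerivAt_cosh u).log (Real.cosh_pos u).ne'
  rw [Real.tanh_eq_sinh_div_cosh]
  exact h

theorem contDiff_log_cosh (m : ℕ) : ContDiff ℝ m (fun y => Real.log (Real.cosh y)) :=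
  Real.contDiff_cosh.log fun x => (Real.cosh_pos x).ne'

/-- Partial derivatives of a function of one coordinate. -/
theorem pd_coord {g g' : ℝ → ℝ} (hg : ∀ s, HasDerivAt g (g' s) s) (i j : Fin n)
    (x : Fin n → ℝ) : pd i (fun y : Fin n → ℝ => g (y j)) x = if i = j then g' (x j) else 0 := by
  unfold pd
  have h1 : HasFDerivAt (fun y : Fin n → ℝ => y j) (ContinuousLinearMap.proj j) x :=
    (ContinuousLinearMap.proj (R := ℝ) (φ := fun _ : Fin n => ℝ) j).hasFDerivAt
  have h2 := (hg (x j)).comp_hasFDerivAt x h1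
  have h3 : fderiv ℝ (fun y : Fin n → ℝ => g (y j)) x =
      g' (x j) • (ContinuousLinearMap.proj (R := ℝ) (φ := fun _ : Fin n => ℝ) j) := h2.fderiv
  rw [h3]
  simp only [smul_apply, smul_eq_mul, ContinuousLinearMap.proj_apply]
  by_cases h : i = j
  · subst h
    simp
  · simp [h, Pi.single_apply, Ne.symm h]

/-- The one-dimensional tilt potential. -/
noncomputable def psi (φ : ℝ) (s : ℝ) : ℝ :=
  φ * (s - Real.pi / 2) - Real.log (Real.cosh (φ * (s - Real.pi / 2)))

theorem contDiff_psi (φ : ℝ) (m : ℕ) : ContDiff ℝ m (psi φ) := by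
  unfold psi
  have h1 : ContDiff ℝ m (fun s : ℝ => φ * (s - Real.pi / 2)) := by fun_prop
  exact h1.sub ((contDiff_log_cosh m).comp h1)

theorem hasDerivAt_lin (φ s : ℝ) : HasDerivAt (fun s : ℝ => φ * (s - Real.pi / 2)) φ s := by
  have := ((hasDerivAt_id s).sub_const (Real.pi / 2)).const_mul φ
  simpa using this

theorem hasDerivAt_psi (φ s : ℝ) :
    HasDerivAt (psi φ) (φ * (1 - Real.tanh (φ * (s - Real.pi / 2)))) s := by
  have h1 := hasDerivAt_lin φ s
  have h2 := (hasDerivAt_log_cosh (φ * (s - Real.pi / 2))).comp s h1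
  have h3 := h1.sub h2
  have e : φ * (1 - Real.tanh (φ * (s - Real.pi / 2))) =
      φ - Real.tanh (φ * (s - Real.pi / 2)) * φ := by ring
  rw [e]
  exact h3

theorem hasDerivAt_psi' (φ s : ℝ) :
    HasDerivAt (fun s => φ * (1 - Real.tanh (φ * (s - Real.pi / 2))))
      (-(φ ^ 2 * (1 - Real.tanh (φ * (s - Real.pi / 2)) ^ 2))) s := by
  have h1 := hasDerivAt_lin φ s
  have h2 := (hasDerivAt_tanh (φ * (s - Real.pi / 2))).comp s h1
  have h3 := (h2.const_sub 1).const_mul φ
  have e : -(φ ^ 2 * (1 - Real.tanh (φ * (s - Real.pi / 2)) ^ 2)) =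
      φ * -((1 - Real.tanh (φ * (s - Real.pi / 2)) ^ 2) * φ) := by ring
  rw [e]
  exact h3

theorem UU_eq (W : (Fin n → ℝ) → ℝ) (φ : ℝ) :
    UU W φ = fun x => W x - ∑ i, psi φ (x i) := by
  ext x
  unfold UU
  congr 1
  refine Finset.sum_congr rfl fun i _ => ?_
  rw [tf, log_one_add_tanh]
  rfl

theorem contDiff_sum_psi (φ : ℝ) (m : ℕ) :
    ContDiff ℝ m (fun x : Fin n → ℝ => ∑ i, psi φ (x i)) :=
  ContDiff.sum fun i _ => (contDiff_psi φ m).comp (contDiff_apply ℝ ℝ i)

theorem pd_UU {W : (Fin n → ℝ) → ℝ} (hW : ContDiff ℝ 2 W) (φ : ℝ) (j : Fin n)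
    (x : Fin n → ℝ) : pd j (UU W φ) x = pd j W x -
      φ * (1 - Real.tanh (φ * (x j - Real.pi / 2))) := by
  rw [UU_eq, pd_sub (hW.of_le (by norm_num)) (by exact_mod_cast contDiff_sum_psi φ 1),
    pd_sum _ (fun i _ => by exact_mod_cast (contDiff_psi φ 1).comp (contDiff_apply ℝ ℝ i))]
  congr 1
  rw [Finset.sum_eq_single j]
  · rw [pd_coord (hasDerivAt_psi φ), if_pos rfl]
  · intro i _ hij
    rw [pd_coord (hasDerivAt_psi φ), if_neg (Ne.symm hij)]
  · intro h
    exact absurd (Finset.mem_univ j) h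

theorem pd_pd_UU {W : (Fin n → ℝ) → ℝ} (hW : ContDiff ℝ 2 W) (φ : ℝ) (i j : Fin n)
    (x : Fin n → ℝ) : pd i (pd j (UU W φ)) x = pd i (pd j W) x +
      if i = j then φ ^ 2 * (1 - tf φ i x ^ 2) else 0 := by
  have h1 : pd j (UU W φ) = fun x => pd j W x -
      φ * (1 - Real.tanh (φ * (x j - Real.pi / 2))) := by
    ext y; exact pd_UU hW φ j y
  have hc : ContDiff ℝ 1 (fun x : Fin n → ℝ =>
      φ * (1 - Real.tanh (φ * (x j - Real.pi / 2)))) := by
    have ht : ContDiff ℝ 1 Real.tanh := by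
      have h2 : Real.tanh = fun y => Real.sinh y / Real.cosh y := by
        ext y; exact Real.tanh_eq_sinh_div_cosh y
      rw [h2]
      exact Real.contDiff_sinh.div Real.contDiff_cosh fun x => (Real.cosh_pos x).ne'
    have h3 : ContDiff ℝ 1 (fun x : Fin n → ℝ => φ * (x j - Real.pi / 2)) := by fun_prop
    exact contDiff_const.mul (contDiff_const.sub (ht.comp h3))
  rw [h1, pd_sub (pd_contDiff (m := 1) (k := 2) hW (by norm_num) j) hc]
  rw [pd_coord (g := fun s => φ * (1 - Real.tanh (φ * (s - Real.pi / 2)))) (hasDerivAt_psi' φ)]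
  by_cases h : i = j
  · subst h
    rw [if_pos rfl, if_pos rfl]
    unfold tf zc
    ring
  · rw [if_neg h, if_neg h]
    ring

end Tilt

open Pool.Agent.H84.Unc.Tilt

theorem UU_contDiff {W : (Fin n → ℝ) → ℝ} (hW : ContDiff ℝ 2 W) (φ : ℝ) :
    ContDiff ℝ 2 (UU W φ) := by
  rw [UU_eq]
  exact hW.sub (by exact_mod_cast contDiff_sum_psi φ 2)

theorem UU_exp (W : (Fin n → ℝ) → ℝ) (φ : ℝ) (x : Fin n → ℝ) :
    Real.exp (-(UU W φ x)) = (∏ i, (1 + tf φ i x)) * Real.exp (-W x) := by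
  unfold UU
  have h : ∏ i, (1 + tf φ i x) = Real.exp (∑ i, Real.log (1 + tf φ i x)) := by
    rw [Real.exp_sum]
    refine Finset.prod_congr rfl fun i _ => ?_
    exact (Real.exp_log (one_add_tanh_pos (φ * zc i x))).symm
  rw [h, ← Real.exp_add]
  congr 1
  ring

theorem UU_hess {W : (Fin n → ℝ) → ℝ} (hW : ContDiff ℝ 2 W) (hH : HessGe W (fun _ _ => 0))
    (φ : ℝ) : HessGe (UU W φ) (fun i x => φ ^ 2 * (1 - tf φ i x ^ 2)) := by
  intro x hx v
  have h1 := hH x hx v
  simp only [zero_mul, Finset.sum_const_zero] at h1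
  have h2 : ∑ i, ∑ j, pd i (pd j (UU W φ)) x * v i * v j =
      (∑ i, ∑ j, pd i (pd j W) x * v i * v j) +
        ∑ i, φ ^ 2 * (1 - tf φ i x ^ 2) * v i ^ 2 := by
    rw [← Finset.sum_add_distrib]
    refine Finset.sum_congr rfl fun i _ => ?_
    have h3 : ∀ j, pd i (pd j (UU W φ)) x * v i * v j = pd i (pd j W) x * v i * v j +
        if i = j then φ ^ 2 * (1 - tf φ i x ^ 2) * v i ^ 2 else 0 := by
      intro j
      rw [pd_pd_UU hW]
      by_cases h : i = j
      · subst h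
        rw [if_pos rfl, if_pos rfl]
        ring
      · rw [if_neg h, if_neg h]
        ring
    simp only [h3]
    rw [Finset.sum_add_distrib]
    congr 1
    rw [Finset.sum_ite_eq]
    simp
  rw [h2]
  linarith

end Pool.Agent.H84.Unc
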