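import Pool.Agent.H84.Unc.Basic
import Pool.Agent.H97.Unc.N2
import Pool.Agent.H84.Unc.Coer
import Pool.Agent.H84.Unc.Tilt
import Pool.Agent.H18.Unc.N4b

set_option autoImplicit false

open MeasureTheory Set Filter Topology

namespace Pool.Agent.H84.Unc

open Pool.Agent.H84 Pool.Agent.H84.Unc.Bx

variable {n : ℕ}

theorem hessGe_mono {U : (Fin n → ℝ) → ℝ} {T T' : Fin n → (Fin n → ℝ) → ℝ} (h : HessGe U T)
    (hle : ∀ i, ∀ x ∈ QQ n, T' i x ≤ T i x) : HessGe U T' := by
  intro x hx v
  refine le_trans ?_ (h x hx v)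
  exact Finset.sum_le_sum fun i _ => mul_le_mul_of_nonneg_right (hle i x hx) (sq_nonneg _)

/-- The Bochner estimate with the harmonic mean (helper97). -/
theorem hm_bochner {U u : (Fin n → ℝ) → ℝ} (hU : ContDiff ℝ 2 U) (hu : ContDiff ℝ 3 u)
    (hN : Neum u) {T : Fin n → (Fin n → ℝ) → ℝ} (hT : ∀ i, Continuous (T i))
    (hTpos : ∀ i x, 0 < T i x) {k0 : ℝ} (hTk : ∀ i, ∀ x ∈ QQ n, k0 ≤ T i x)
    (hH : HessGe U T) {C A : ℝ} (hC : 0 < C) (hPC : BoxPC U C)
    (hA : ∀ i, ∫ x in QQ n, (T i x)⁻¹ * Real.exp (-U x) ≤ A * ∫ x in QQ n, Real.exp (-U x))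
    (hAC : A < C) :
    (1 / C + (1 - A / C) * k0) * ∫ x in QQ n, gsq u x * Real.exp (-U x) ≤
      ∫ x in QQ n, (LL U u x) ^ 2 * Real.exp (-U x) := by
  have hUc : Continuous U := hU.continuous
  have hρ : Continuous (fun x : Fin n → ℝ => Real.exp (-U x)) := by fun_prop
  have hu1 : ContDiff ℝ 1 u := hu.of_le (by norm_num)
  have hpu2 : ∀ i, ContDiff ℝ 2 (pd i u) := fun i => contDiff_pd (m := 2) (by exact_mod_cast hu) i
  have hpu1 : ∀ i, ContDiff ℝ 1 (pd i u) := fun i => (hpu2 i).of_le (by norm_num)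
  have hpc : ∀ i, Continuous (pd i u) := fun i => (hpu1 i).continuous
  have hppU : ∀ i j, Continuous (pd i (pd j U)) := fun i j =>
    continuous_pd (contDiff_pd (m := 1) (by exact_mod_cast hU) j) i
  set Z := ∫ x in QQ n, Real.exp (-U x) with hZ
  have hZ0 : 0 < Z := integral_pos_QQ hρ fun x => Real.exp_pos _
  set S : Fin n → ℝ := fun i => ∫ x in QQ n, T i x * (pd i u x) ^ 2 * Real.exp (-U x) with hS
  set D : Fin n → ℝ := fun i => ∫ x in QQ n, (pd i u x) ^ 2 * Real.exp (-U x) with hD
  have hG : ∫ x in QQ n, gsq u x * Real.exp (-U x) = ∑ i, D i := by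
    rw [hD, ← integral_finsetSum]
    · congr 1
      ext x
      rw [gsq, Finset.sum_mul]
    · intro i _
      exact int_QQ (by fun_prop)
  -- mean values of the derivatives
  have hmean : ∀ i, (∫ x in QQ n, pd i u x * Real.exp (-U x)) ^ 2 ≤ S i * (A * Z) := by
    intro i
    have hsq : ∀ x, Real.sqrt (T i x) * (Real.sqrt (T i x))⁻¹ = 1 := fun x =>
      mul_inv_cancel₀ (Real.sqrt_pos.2 (hTpos i x)).ne'
    have hTi := hT i
    have hsqc : Continuous fun x => (Real.sqrt (T i x))⁻¹ :=
      (Real.continuous_sqrt.comp hTi).inv₀ fun x => (Real.sqrt_pos.2 (hTpos i x)).ne'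
    have hpi := hpc i
    have h1 := cs_QQ (f := fun x => Real.sqrt (T i x) * pd i u x)
      (g := fun x => (Real.sqrt (T i x))⁻¹) (ρ := fun x => Real.exp (-U x))
      ((Real.continuous_sqrt.comp hTi).mul hpi) hsqc hρ (fun x => (Real.exp_pos _).le)
    have e1 : ∀ x, Real.sqrt (T i x) * pd i u x * (Real.sqrt (T i x))⁻¹ * Real.exp (-U x)
        = pd i u x * Real.exp (-U x) := by
      intro x
      calc _ = (Real.sqrt (T i x) * (Real.sqrt (T i x))⁻¹) * (pd i u x * Real.exp (-U x)) := by ring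
        _ = _ := by rw [hsq, one_mul]
    have e2 : ∀ x, (Real.sqrt (T i x) * pd i u x) ^ 2 * Real.exp (-U x)
        = T i x * (pd i u x) ^ 2 * Real.exp (-U x) := by
      intro x
      rw [mul_pow, Real.sq_sqrt (hTpos i x).le]
    have e3 : ∀ x, (Real.sqrt (T i x))⁻¹ ^ 2 * Real.exp (-U x)
        = (T i x)⁻¹ * Real.exp (-U x) := by
      intro x
      rw [inv_pow, Real.sq_sqrt (hTpos i x).le]
    simp only [e1, e2, e3] at h1
    refine h1.trans ?_
    refine mul_le_mul_of_nonneg_left (hA i) ?_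
    exact integral_nonneg fun x => by have := hTpos i x; positivity
  -- Poincare for the derivatives
  have hP : ∀ i, (D i - (A * S i)) / C ≤ ∫ x in QQ n, gsq (pd i u) x * Real.exp (-U x) := by
    intro i
    have h1 := hPC (pd i u) (hpu1 i)
    rw [← hZ] at h1
    have h2 := hmean i
    set g := ∫ x in QQ n, gsq (pd i u) x * Real.exp (-U x) with hg
    have h3 : D i * Z - S i * (A * Z) ≤ C * (g * Z) := by
      have : D i = ∫ x in QQ n, pd i u x ^ 2 * Real.exp (-U x) := rfl
      rw [this]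
      linarith
    have h4 : (D i - A * S i) * Z ≤ (C * g) * Z := by linarith
    have h5 := le_of_mul_le_mul_right h4 hZ0
    rw [div_le_iff₀ hC]
    linarith
  -- Bochner
  have hB := box_bochner hU hu hN
  have hB1 : ∫ x in QQ n, (∑ i, gsq (pd i u) x) * Real.exp (-U x)
      = ∑ i, ∫ x in QQ n, gsq (pd i u) x * Real.exp (-U x) := by
    rw [← integral_finsetSum]
    · congr 1
      ext x
      rw [Finset.sum_mul]
    · intro i _
      exact int_QQ ((continuous_gsq (hpu1 i)).mul hρ)
  have hB2 : ∑ i, S i ≤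
      ∫ x in QQ n, (∑ i, ∑ j, pd i (pd j U) x * pd i u x * pd j u x) * Real.exp (-U x) := by
    rw [hS, ← integral_finsetSum]
    · apply integral_mono_QQ
      · refine continuous_finsetSum _ fun i _ => ?_
        exact ((hT i).mul ((hpc i).pow 2)).mul hρ
      · refine Continuous.mul ?_ hρ
        refine continuous_finsetSum _ fun i _ => continuous_finsetSum _ fun j _ => ?_
        exact ((hppU i j).mul (hpc i)).mul (hpc j)
      · intro x hx
        rw [← Finset.sum_mul]
        exact mul_le_mul_of_nonneg_right (hH x hx fun i => pd i u x) (Real.exp_pos _).le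
    · intro i _
      exact int_QQ (((hT i).mul ((hpc i).pow 2)).mul hρ)
  have hSD : ∀ i, k0 * D i ≤ S i := by
    intro i
    rw [hS, hD]
    simp only
    rw [← integral_const_mul]
    apply integral_mono_QQ
    · have := hpc i
      fun_prop
    · exact ((hT i).mul ((hpc i).pow 2)).mul hρ
    · intro x hx
      rw [← mul_assoc]
      refine mul_le_mul_of_nonneg_right ?_ (Real.exp_pos _).le
      exact mul_le_mul_of_nonneg_right (hTk i x hx) (sq_nonneg _)
  rw [hB, hB1, hG]
  have hAC' : 0 ≤ 1 - A / C := by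
    rw [sub_nonneg, div_le_one hC]
    exact hAC.le
  calc (1 / C + (1 - A / C) * k0) * ∑ i, D i
      = ∑ i, (D i / C + (1 - A / C) * (k0 * D i)) := by
        rw [Finset.mul_sum]
        refine Finset.sum_congr rfl fun i _ => ?_
        ring
    _ ≤ ∑ i, (D i / C + (1 - A / C) * S i) := by
        refine Finset.sum_le_sum fun i _ => ?_
        have := mul_le_mul_of_nonneg_left (hSD i) hAC'
        linarith
    _ = ∑ i, (D i - A * S i) / C + ∑ i, S i := by
        rw [← Finset.sum_add_distrib]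
        refine Finset.sum_congr rfl fun i _ => ?_
        ring
    _ ≤ _ := add_le_add (Finset.sum_le_sum fun i _ => hP i) hB2

/-- Self-improvement of the Poincare constant above the harmonic mean (helper97). -/
theorem hm_improve {U : (Fin n → ℝ) → ℝ} (hU : ContDiff ℝ 2 U)
    {T : Fin n → (Fin n → ℝ) → ℝ} (hT : ∀ i, Continuous (T i))
    (hTpos : ∀ i x, 0 < T i x) {k0 : ℝ} (hk0 : 0 < k0) (hTk : ∀ i, ∀ x ∈ QQ n, k0 ≤ T i x)
    (hH : HessGe U T) {C A : ℝ} (hC : 0 < C) (hPC : BoxPC U C)
    (hA : ∀ i, ∫ x in QQ n, (T i x)⁻¹ * Real.exp (-U x) ≤ A * ∫ x in QQ n, Real.exp (-U x))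
    (hAC : A < C) : BoxPC U (1 / (1 / C + (1 - A / C) * k0)) := by
  have hμ0 : 0 < 1 / C + (1 - A / C) * k0 := by
    have : 0 ≤ 1 - A / C := by
      rw [sub_nonneg, div_le_one hC]
      exact hAC.le
    positivity
  refine boxPC_of_coer hU hk0 (hessGe_mono hH hTk) hμ0 fun N u hu => ?_
  exact hm_bochner hU (by exact_mod_cast VV_contDiff hu 3) (VV_neum hu) hT hTpos hTk hH hC hPC
    hA hAC

theorem one_sub_tanh_sq (u : ℝ) : 1 - Real.tanh u ^ 2 = (Real.cosh u ^ 2)⁻¹ := by
  have h := Real.cosh_pos u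
  have h2 := Real.cosh_sq u
  rw [Real.tanh_eq_sinh_div_cosh]
  field_simp
  linarith

theorem cosh_sq_le (u : ℝ) : Real.cosh u ^ 2 ≤ Real.exp (2 * |u|) := by
  have h : Real.cosh u ≤ Real.exp |u| := by
    rw [← Real.cosh_abs, Real.cosh_eq]
    have : Real.exp (-|u|) ≤ Real.exp |u| := Real.exp_le_exp.2 (by have := abs_nonneg u; linarith)
    linarith
  have h0 : 0 ≤ Real.cosh u := (Real.cosh_pos u).le
  calc Real.cosh u ^ 2 ≤ (Real.exp |u|) ^ 2 := pow_le_pow_left₀ h0 h 2
    _ = Real.exp (2 * |u|) := by rw [← Real.exp_nat_mul]; norm_num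

theorem box_core {W : (Fin n → ℝ) → ℝ} (hW : ContDiff ℝ 2 W) (hH : HessGe W (fun _ _ => 0))
    (heven : ∀ i x, W (rf i x) = W x) {φ M : ℝ} (hφ : 0 < φ) (hM : 1 ≤ M)
    (hmom : ∀ i, ∫ x in QQ n, Real.exp (12 * φ * |zc i x|) * Real.exp (-W x) ≤
      M * ∫ x in QQ n, Real.exp (-W x)) :
    BoxPC (UU W φ) (18 * M / φ ^ 2) := by
  set U := UU W φ with hUd
  have hU : ContDiff ℝ 2 U := UU_contDiff hW φ
  have hUc : Continuous U := hU.continuous
  have hWc : Continuous W := hW.continuous
  have hzc : ∀ i : Fin n, Continuous (fun x : Fin n → ℝ => zc i x) := fun i => by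
    unfold zc; fun_prop
  have hcosh : Continuous Real.cosh := Real.continuous_cosh
  set T : Fin n → (Fin n → ℝ) → ℝ := fun i x => φ ^ 2 * (1 - tf φ i x ^ 2) with hTd
  have hTe : ∀ i x, T i x = φ ^ 2 * (Real.cosh (φ * zc i x) ^ 2)⁻¹ := by
    intro i x
    rw [hTd]
    simp only [tf, one_sub_tanh_sq]
  have hcp : ∀ u : ℝ, 0 < Real.cosh u := Real.cosh_pos
  have hTc : ∀ i, Continuous (T i) := by
    intro i
    have : T i = fun x => φ ^ 2 * (Real.cosh (φ * zc i x) ^ 2)⁻¹ := by
      ext x; exact hTe i x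
    rw [this]
    refine continuous_const.mul (Continuous.inv₀ ?_ fun x => by have := hcp (φ * zc i x); positivity)
    exact (hcosh.comp (continuous_const.mul (hzc i))).pow 2
  have hTpos : ∀ i x, 0 < T i x := by
    intro i x
    rw [hTe]
    have := hcp (φ * zc i x)
    positivity
  set k0 := φ ^ 2 * (Real.cosh (φ * (Real.pi / 2)) ^ 2)⁻¹ with hk0d
  have hk0 : 0 < k0 := by
    have := hcp (φ * (Real.pi / 2))
    positivity
  have hTk : ∀ i, ∀ x ∈ QQ n, k0 ≤ T i x := by
    intro i x hx
    rw [hTe, hk0d]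
    have h1 : Real.cosh (φ * zc i x) ≤ Real.cosh (φ * (Real.pi / 2)) := by
      rw [Real.cosh_le_cosh, abs_mul, abs_mul]
      refine mul_le_mul_of_nonneg_left ?_ (abs_nonneg _)
      rw [abs_of_pos (by positivity : 0 < Real.pi / 2), zc, abs_le]
      have h2 := hx.1 i
      have h3 := hx.2 i
      simp only [Pi.zero_apply] at h2 h3
      constructor <;> linarith
    have := hcp (φ * zc i x)
    gcongr
  have hHU : HessGe U T := UU_hess hW hH φ
  set Z := ∫ x in QQ n, Real.exp (-U x) with hZ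
  have hρ : Continuous (fun x : Fin n → ℝ => Real.exp (-U x)) := by fun_prop
  have hZ0 : 0 < Z := integral_pos_QQ hρ fun x => Real.exp_pos _
  have hexp : ∀ x, Real.exp (-U x) = (∏ i, (1 + tf φ i x)) * Real.exp (-W x) := UU_exp W φ
  have hZW : Z = ∫ x in QQ n, Real.exp (-W x) := by
    have := flip_integral hWc heven φ Finset.univ (q := fun _ => 1) continuous_const
      (fun _ _ _ => rfl)
    simp only [one_mul] at this
    rw [hZ]
    simp only [hexp]
    exact this
  have hA : ∀ i, ∫ x in QQ n, (T i x)⁻¹ * Real.exp (-U x) ≤ (M / φ ^ 2) * Z := by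
    intro i
    have hq : Continuous (fun x : Fin n → ℝ => Real.exp (12 * φ * |zc i x|)) := by
      have := hzc i
      fun_prop
    have hqe : ∀ j ∈ (Finset.univ : Finset (Fin n)), ∀ x : Fin n → ℝ,
        Real.exp (12 * φ * |zc i (rf j x)|) = Real.exp (12 * φ * |zc i x|) := by
      intro j _ x
      congr 2
      unfold zc rf
      by_cases hij : i = j
      · subst hij
        rw [Function.update_self, ← abs_neg]
        congr 1
        ring
      · rw [Function.update_of_ne hij]
    have h1 := flip_integral hWc heven φ Finset.univ hq hqe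
    calc ∫ x in QQ n, (T i x)⁻¹ * Real.exp (-U x)
        ≤ ∫ x in QQ n, (φ ^ 2)⁻¹ * (Real.exp (12 * φ * |zc i x|) * Real.exp (-U x)) := by
          apply integral_mono_QQ
          · exact ((hTc i).inv₀ fun x => (hTpos i x).ne').mul hρ
          · exact (hq.mul hρ).const_mul _
          · intro x _
            rw [← mul_assoc]
            refine mul_le_mul_of_nonneg_right ?_ (Real.exp_pos _).le
            rw [hTe, mul_inv, inv_inv]
            refine mul_le_mul_of_nonneg_left ?_ (by positivity)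
            refine (cosh_sq_le _).trans (Real.exp_le_exp.2 ?_)
            rw [abs_mul, abs_of_pos hφ]
            have := abs_nonneg (zc i x)
            nlinarith [mul_nonneg hφ.le this]
      _ = (φ ^ 2)⁻¹ * ∫ x in QQ n, Real.exp (12 * φ * |zc i x|) * Real.exp (-W x) := by
          rw [integral_const_mul]
          congr 1
          simp only [hexp]
          exact h1
      _ ≤ (φ ^ 2)⁻¹ * (M * Z) := by
          rw [hZW]
          exact mul_le_mul_of_nonneg_left (hmom i) (by positivity)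
      _ = _ := by ring
  -- the optimal constant
  set A := M / φ ^ 2 with hAd
  have hA0 : 0 < A := by positivity
  set S : Set ℝ := {C | 0 < C ∧ BoxPC U C} with hS
  have hSne : S.Nonempty :=
    ⟨1 / k0, by positivity, boxPC_hess hU hk0 (hessGe_mono hHU hTk)⟩
  have hSb : BddBelow S := ⟨0, fun C hC => hC.1.le⟩
  set Cs := sInf S with hCs
  have hCsPC : BoxPC U Cs := by
    intro f hf
    set R := (∫ x in QQ n, gsq f x * Real.exp (-U x)) * Z with hR
    have hR0 : 0 ≤ R := mul_nonneg
      (integral_nonneg fun x => mul_nonneg (gsq_nonneg f x) (Real.exp_pos _).le) hZ0.le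
    refine le_of_forall_pos_le_add fun δ hδ => ?_
    obtain ⟨C, hC, hClt⟩ := exists_lt_of_csInf_lt hSne
      (show Cs < Cs + δ / (R + 1) by have : 0 < δ / (R + 1) := by positivity
                                     linarith)
    have h1 := hC.2 f hf
    have h2 : δ / (R + 1) * R ≤ δ := by
      rw [div_mul_eq_mul_div, div_le_iff₀ (by positivity)]
      nlinarith
    calc _ ≤ C * R := h1
      _ ≤ (Cs + δ / (R + 1)) * R := mul_le_mul_of_nonneg_right hClt.le hR0
      _ ≤ _ := by linarith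
  have hle : Cs ≤ A := by
    by_contra hlt
    push Not at hlt
    have hCs0 : 0 < Cs := hA0.trans hlt
    have himp := hm_improve hU hTc hTpos hk0 hTk hHU hCs0 hCsPC hA hlt
    have hd : 0 < 1 - A / Cs := by
      rw [sub_pos, div_lt_one hCs0]
      exact hlt
    have hpos : 0 < 1 / (1 / Cs + (1 - A / Cs) * k0) := by positivity
    have hmem : 1 / (1 / Cs + (1 - A / Cs) * k0) ∈ S := ⟨hpos, himp⟩
    have h1 := csInf_le hSb hmem
    have h2 : 1 / (1 / Cs + (1 - A / Cs) * k0) < Cs := by
      rw [div_lt_iff₀ (by positivity)]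
      have h3 : Cs * (1 / Cs + (1 - A / Cs) * k0) = 1 + Cs * ((1 - A / Cs) * k0) := by
        field_simp
      rw [h3]
      have : 0 < Cs * ((1 - A / Cs) * k0) := by positivity
      linarith
    linarith
  refine boxPC_mono hCsPC (hle.trans ?_)
  rw [hAd]
  gcongr
  linarith

end Pool.Agent.H84.Unc
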