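import Pool.Agent.H84.Unc.Body
import Pool.Agent.H47.Unc.N9
import Pool.Agent.H74.Unc.N10
import Pool.Agent.H84.KlsClass

set_option autoImplicit false

open MeasureTheory Measure Set
open scoped Pointwise ENNReal

namespace Pool.Agent.H84.Unc

open Pool.Agent.H84

variable {n : ℕ}

theorem flip_apply_ne {i j : Fin n} (h : j ≠ i) (x : EuclideanSpace ℝ (Fin n)) :
    flip i x j = x j := by
  simp [flip, h]

theorem flip_apply_self (i : Fin n) (x : EuclideanSpace ℝ (Fin n)) : flip i x i = -(x i) := by
  simp [flip]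

theorem flip_smul (i : Fin n) (r : ℝ) (x : EuclideanSpace ℝ (Fin n)) :
    flip i (r • x) = r • flip i x := by
  ext j
  by_cases h : j = i
  · subst h
    rw [flip_apply_self]
    simp [flip_apply_self]
  · rw [flip_apply_ne h]
    simp [flip_apply_ne h]

theorem coord_abs_le (x : EuclideanSpace ℝ (Fin n)) (i : Fin n) : |x i| ≤ ‖x‖ := by
  have := PiLp.norm_apply_le x i
  simpa using this

/-- **The Poincare inequality for unconditional bodies**, with an absolute constant. -/
theorem unc_poincare {K : Set (EuclideanSpace ℝ (Fin n))} {R : ℝ} (hK : CB K R) (hinv : RInv K)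
    {s : ℝ} (hs : 0 < s) (hm : ∀ i, ∫ x in K, (x i) ^ 2 ≤ s ^ 2 * volume.real K) :
    PC K (400 * s) := by
  set r : ℝ := (|R| + 1)⁻¹ with hr
  have hr0 : 0 < r := by positivity
  have hrne : r ≠ 0 := hr0.ne'
  have hK' : CB (r • K) 1 := by
    refine ⟨hK.conv.smul r, hK.meas.const_smul_of_ne_zero hrne, ?_, ?_⟩
    · rintro _ ⟨x, hx, rfl⟩
      have h1 := hK.sub hx
      rw [mem_closedBall_zero_iff] at h1 ⊢
      simp only [norm_smul, Real.norm_of_nonneg hr0.le]
      rw [hr, inv_mul_le_iff₀ (by positivity), mul_one]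
      exact (h1.trans (le_abs_self R)).trans (by linarith)
    · rw [Measure.addHaar_smul]
      simp only [ne_eq, mul_eq_zero, not_or]
      refine ⟨?_, hK.vol0⟩
      simp only [ENNReal.ofReal_eq_zero, not_le]
      positivity
  have hinv' : RInv (r • K) := by
    rintro i _ ⟨x, hx, rfl⟩
    exact ⟨flip i x, hinv i x hx, (flip_smul i r x).symm⟩
  have hb : ∀ x ∈ r • K, ∀ i, |x i| ≤ Real.pi / 2 := by
    intro x hx i
    have h1 := hK'.sub hx
    rw [mem_closedBall_zero_iff] at h1
    have h2 := Real.pi_gt_three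
    linarith [coord_abs_le x i]
  set s' := r * s with hs'
  have hs'0 : 0 < s' := by positivity
  have hm' : ∀ i, ∫ x in r • K, (x i) ^ 2 ≤ s' ^ 2 * volume.real (r • K) := by
    intro i
    rw [setIntegral_smul_set K hr0, volume_real_smul K hr0]
    have h1 : ∀ x : EuclideanSpace ℝ (Fin n), ((r • x) i) ^ 2 = r ^ 2 * (x i) ^ 2 := by
      intro x
      simp only [PiLp.smul_apply, smul_eq_mul]
      ring
    simp only [h1]
    rw [integral_const_mul, hs']
    set d := r ^ Module.finrank ℝ (EuclideanSpace ℝ (Fin n)) with hd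
    have hd0 : 0 < d := by positivity
    have h2 := mul_le_mul_of_nonneg_left (hm i) (by positivity : 0 ≤ d * r ^ 2)
    calc d * (r ^ 2 * ∫ x in K, (x i) ^ 2) = d * r ^ 2 * ∫ x in K, (x i) ^ 2 := by ring
      _ ≤ _ := h2
      _ = _ := by ring
  set φ : ℝ := 1 / (24 * s') with hφ
  have hφ0 : 0 < φ := by positivity
  have hmom : ∀ i, ∫ x in r • K, Real.exp (12 * φ * |x i|) < 9 * volume.real (r • K) := by
    intro i
    have h1 := exp_moment hK' hinv' i hs'0 (hm' i)
    have h2 : ∀ x : EuclideanSpace ℝ (Fin n), 12 * φ * |x i| = |x i| / (2 * s') := by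
      intro x
      rw [hφ]
      field_simp
      ring
    simp only [h2]
    exact h1
  have hT := body_tilt hK' hinv' hb hφ0 (by norm_num : (1:ℝ) ≤ 9) hmom
  have hPC : PC (r • K) (400 * s') := by
    refine coin_flip hK' hinv' hm' (φ := φ) (θ := 1 / 576) ?_ (by norm_num) (by positivity) hT ?_
    · rw [hφ]
      apply le_of_eq
      field_simp
      norm_num
    · have : 18 * 9 / φ ^ 2 = 93312 * s' ^ 2 := by
        rw [hφ]
        field_simp
        norm_num
      rw [this]
      have h3 : 0 < s' ^ 2 := by positivity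
      rw [div_le_iff₀ (by norm_num)]
      nlinarith
  have hfin := hPC.smul (r := r⁻¹) (by positivity)
  rw [inv_smul_smul₀ hrne] at hfin
  have he : r⁻¹ * (400 * s') = 400 * s := by
    rw [hs']
    field_simp
  rw [he] at hfin
  exact hfin

end Pool.Agent.H84.Unc
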